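import Pool.Agent.Lib.MP_1a91b9_ntW.T.TamP
import Pool.Agent.Lib.MP_1a91b9_nuX.GL.CntC
import Pool.Agent.Lib.MP_1a91b9_nt.LocalTwist

/-!
# Phase 6, `ℚ(√-2)`: the local factor of `WW (dW k j S)` at `lam`

`lam_bad`: the local polynomial is `1` unless `j = 0`, `k = 1`, `AS S = 1`.
`lam_good`: in this case it is `1 + 2 X²`.
-/

set_option autoImplicit false

namespace Pool.Agent.Lib.MP_1a91b9_ntW.L

open NumberField IsDedekindDomain WeierstrassCurve Finset WithZero
  Pool.Agent.Lib.MP_1a91b9_nuX Pool.Agent.Lib.MP_1a91b9_ntW Pool.Agent.Lib.MP_1a91b9_ntW.T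
  Pool.Agent.Lib.MP_1a91b9_nt
open Pool.Agent.Lib.MP_1a91b9_ntH.C.TamT (Itg)
open Pool.Agent.Lib.MP_1a91b9_ntV.C (NoDown)

noncomputable section

/-! ### No good model -/

theorem valA (v : HeightOneSpectrum (𝓞 K8)) (x : K8) :
    Valued.v (algebraMap K8 (v.adicCompletion K8) x) = v.valuation K8 x :=
  HeightOneSpectrum.valuedAdicCompletion_eq_valuation' v x

theorem disc_back {L : Type*} [Field L] (M : WeierstrassCurve L) (D : VariableChange L) :
    M.Δ = (D.u : L) ^ 12 * (D • M).Δ := by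
  have hu0 : (D.u : L) ≠ 0 := D.u.ne_zero
  rw [variableChange_Δ, Units.val_inv_eq_inv_val]
  field_simp

/-- A minimal model whose discriminant is not a unit excludes the good models. -/
theorem noGood {v : HeightOneSpectrum (𝓞 K8)} {W : WeierstrassCurve K8}
    {C₀ : VariableChange (v.adicCompletion K8)}
    (hnd : NoDown (Valued.v : Valuation (v.adicCompletion K8) ℤᵐ⁰)
      (C₀ • W.baseChange (v.adicCompletion K8)))
    (hd : Valued.v (C₀ • W.baseChange (v.adicCompletion K8)).Δ < (1 : ℤᵐ⁰)) :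
    ¬ ∃ C : VariableChange K8, GM.GoodW (v.valuation K8) (C • W) := by
  rintro ⟨C, hC⟩
  obtain ⟨D, hD⟩ : ∃ D : VariableChange (v.adicCompletion K8),
    D = C.map (algebraMap K8 (v.adicCompletion K8)) * C₀⁻¹ := ⟨_, rfl⟩
  have h1 : D • (C₀ • W.baseChange (v.adicCompletion K8)) =
      (C • W).map (algebraMap K8 (v.adicCompletion K8)) := by
    rw [hD, mul_smul, inv_smul_smul]
    exact (WeierstrassCurve.map_variableChange _ _ _)
  have hI : Itg (Valued.v : Valuation (v.adicCompletion K8) ℤᵐ⁰)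
      (D • (C₀ • W.baseChange (v.adicCompletion K8))) := by
    rw [h1]
    refine ⟨?_, ?_, ?_, ?_, ?_⟩
    · exact (valA v _).trans_le hC.a1
    · exact (valA v _).trans_le hC.a2
    · exact (valA v _).trans_le hC.a3
    · exact (valA v _).trans_le hC.a4
    · exact (valA v _).trans_le hC.a6
  have h2 : Valued.v (D • (C₀ • W.baseChange (v.adicCompletion K8))).Δ = (1 : ℤᵐ⁰) := by
    rw [h1, WeierstrassCurve.map_Δ, valA]
    exact hC.disc
  refine hnd D hI ?_
  rw [disc_back _ D, map_mul, h2, mul_one, map_pow] at hd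
  exact (pow_lt_one_iff (by norm_num)).1 hd

theorem eq_vl {v : HeightOneSpectrum (𝓞 K8)} (h : lam ∈ v.asIdeal) : v = vl := by
  apply HeightOneSpectrum.ext
  have hm : (Ideal.span {lam} : Ideal (𝓞 K8)).IsMaximal :=
    Ideal.IsPrime.isMaximal ((Ideal.span_singleton_prime lam_ne_zero).2 lam_prime) (by
      rw [Ne, Ideal.span_singleton_eq_bot]
      exact lam_ne_zero)
  have h1 : Ideal.span {lam} = v.asIdeal := hm.eq_of_le v.isPrime.ne_top (by
    rw [Ideal.span_singleton_le_iff_mem]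
    exact h)
  exact h1.symm

theorem noGood_lam {k j : ZMod 2} {S : Finset Pg} (h : ¬ (j = 0 ∧ k = 1 ∧ AS S = 1)) :
    ¬ ∃ C : VariableChange K8, GM.GoodW (vl.valuation K8) (C • WW (dW k j S)) := by
  have hδ := el_unit (dO_odd k S)
  rcases h01 j with rfl | rfl
  · have hc : CO (dO k S) := CO_dO fun h' => h ⟨rfl, h'.2, h'.1⟩
    rw [dW_zero]
    refine noGood (C₀ := T.C0) ?_ ?_
    · rw [T.C0_smul]
      exact ql8.noDown0 hδ (CD_of_CO hc)
    · rw [T.C0_smul, w0_delta ql8]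
      have e : (-64 : vl.adicCompletion K8) = -2 ^ 6 := by norm_num
      rw [e, map_mul, Valuation.map_neg, map_pow, map_pow, hδ, ql8.two, one_pow, mul_one,
        ← exp_nsmul, ← exp_zero, exp_lt_exp]
      norm_num
  · obtain ⟨-, h2⟩ := one_itg (dO_odd k S)
    rw [dW_one]
    refine noGood h2 ?_
    have e : (512 : vl.adicCompletion K8) = 2 ^ 9 := by norm_num
    rw [one_smul, WW_bc, wL_delta, e, map_mul, map_pow, map_pow, hδ, ql8.two, one_pow, mul_one,
      ← exp_nsmul, ← exp_zero, exp_lt_exp]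
    norm_num

/-- **The local factor at `lam`, bad reduction.** -/
theorem lam_bad {k j : ZMod 2} {S : Finset Pg} (h : ¬ (j = 0 ∧ k = 1 ∧ AS S = 1))
    {v : HeightOneSpectrum (𝓞 K8)} (hv : lam ∈ v.asIdeal) : locPoly (WW (dW k j S)) v = 1 := by
  obtain rfl := eq_vl hv
  refine GL.locPoly_bad vl _ ?_ (noGood_lam h)
  rw [WW_c4, WW_delta]
  have e : (160 * ((dW k j S : 𝓞 K8) : K8) ^ 2) ^ 3 =
      8000 * (512 * ((dW k j S : 𝓞 K8) : K8) ^ 6) := by ring
  rw [e, map_mul]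
  refine mul_le_of_le_one_left' ?_
  have e2 : (8000 : K8) = ((8000 : 𝓞 K8) : K8) := (map_ofNat (algebraMap (𝓞 K8) K8) 8000).symm
  rw [e2]
  exact vl.valuation_le_one _

/-! ### The good model -/

/-- the integral model, `η = 1` -/
def M1 (c : 𝓞 K8) : WeierstrassCurve (𝓞 K8) := ⟨-lam, 1 + 2 * lam - 2 * c * (3 + lam), -1,
  -3 + lam + (-2 * c * (1 + lam) + 4 * c ^ 2) * (4 + 2 * lam),
  -(2 + lam + (1 + lam) * (3 * c * (-1 + 2 * lam) - 12 * c ^ 2 * (1 + lam) + 16 * c ^ 3))⟩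

/-- the integral model, `η = -1` -/
def M2 (c : 𝓞 K8) : WeierstrassCurve (𝓞 K8) := ⟨-lam, -2 + lam - 2 * c * (3 + lam), -(1 + lam),
  2 - 3 * lam + (2 * c * (1 - lam) + 4 * c ^ 2) * (4 + 2 * lam),
  -(-1 - lam + (1 + lam) * (3 * (-1 - 2 * lam) * c + 12 * (1 - lam) * c ^ 2 + 16 * c ^ 3))⟩

/-- the change of variables -/
def CM (d t : K8) : VariableChange K8 :=
  ⟨Units.mk0 (-2) (by norm_num), -2 * d * (1 + (lam : K8)), (lam : K8), 4 * t⟩

theorem lamK_sq : (lam : K8) ^ 2 = -2 := by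
  have h : ((lam ^ 2 : 𝓞 K8) : K8) = ((-2 : 𝓞 K8) : K8) := by rw [lam_sq]
  have h1 : ((lam ^ 2 : 𝓞 K8) : K8) = (lam : K8) ^ 2 := map_pow (algebraMap (𝓞 K8) K8) _ _
  have h2 : ((-2 : 𝓞 K8) : K8) = -2 := by
    change algebraMap (𝓞 K8) K8 (-2) = -2
    rw [map_neg, map_ofNat]
  rw [← h1, h, h2]

theorem M1_eq (c : 𝓞 K8) : CM ((-(1 + lam) + 4 * c : 𝓞 K8) : K8) 1 •
    WW (lam * (-(1 + lam) + 4 * c)) = (M1 c).map (algebraMap (𝓞 K8) K8) := by
  have hl := lamK_sq
  have hu : (((CM ((-(1 + lam) + 4 * c : 𝓞 K8) : K8) 1).u⁻¹ : K8ˣ) : K8) = -1 / 2 := by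
    rw [Units.val_inv_eq_inv_val]
    change ((-2 : K8))⁻¹ = -1 / 2
    norm_num
  have hd : ((-(1 + lam) + 4 * c : 𝓞 K8) : K8) = -(1 + (lam : K8)) + 4 * (c : K8) := by
    change algebraMap (𝓞 K8) K8 (-(1 + lam) + 4 * c) = _
    rw [map_add, map_neg, map_add, map_one, map_mul, map_ofNat]
  have hld : ((lam * (-(1 + lam) + 4 * c) : 𝓞 K8) : K8) =
      (lam : K8) * (-(1 + (lam : K8)) + 4 * (c : K8)) := by
    rw [← hd]
    exact map_mul (algebraMap (𝓞 K8) K8) _ _
  have e2 : algebraMap (𝓞 K8) K8 (1 + 2 * lam - 2 * c * (3 + lam)) =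
      1 + 2 * (lam : K8) - 2 * (c : K8) * (3 + (lam : K8)) := by
    simp only [map_add, map_sub, map_mul, map_one, map_ofNat]
  have e4 : algebraMap (𝓞 K8) K8 (-3 + lam + (-2 * c * (1 + lam) + 4 * c ^ 2) * (4 + 2 * lam)) =
      -3 + (lam : K8) + (-2 * (c : K8) * (1 + (lam : K8)) + 4 * (c : K8) ^ 2) *
        (4 + 2 * (lam : K8)) := by
    simp only [map_add, map_neg, map_mul, map_one, map_ofNat, map_pow]
  have e6 : algebraMap (𝓞 K8) K8 (-(2 + lam + (1 + lam) * (3 * c * (-1 + 2 * lam) -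
      12 * c ^ 2 * (1 + lam) + 16 * c ^ 3))) = -(2 + (lam : K8) + (1 + (lam : K8)) *
        (3 * (c : K8) * (-1 + 2 * (lam : K8)) - 12 * (c : K8) ^ 2 * (1 + (lam : K8)) +
          16 * (c : K8) ^ 3)) := by
    simp only [map_add, map_neg, map_sub, map_mul, map_one, map_ofNat, map_pow]
  obtain ⟨l, hl'⟩ : ∃ l : K8, l = (lam : K8) := ⟨_, rfl⟩
  obtain ⟨c', hc'⟩ : ∃ c' : K8, c' = (c : K8) := ⟨_, rfl⟩
  ext
  · rw [variableChange_a₁, hu]
    simp only [WW, CM, M1, WeierstrassCurve.map]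
    rw [map_neg]
    ring
  · rw [variableChange_a₂, hu]
    simp only [WW, CM, M1, WeierstrassCurve.map]
    rw [e2, hd, hld, ← hl', ← hc']
    rw [← hl'] at hl
    linear_combination ((1 / 4)) * hl
  · rw [variableChange_a₃, hu]
    simp only [WW, CM, M1, WeierstrassCurve.map]
    rw [map_neg, map_one]
    ring
  · rw [variableChange_a₄, hu]
    simp only [WW, CM, M1, WeierstrassCurve.map]
    rw [e4, hd, hld, ← hl', ← hc']
    rw [← hl'] at hl
    linear_combination ((15 / 8) + (1 / 4) * l + (-1 / 8) * l ^ 2 + 1 * c' + 1 * c' * l + (-2) * c' ^ 2) * hl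
  · rw [variableChange_a₆, hu]
    simp only [WW, CM, M1, WeierstrassCurve.map]
    rw [e6, hd, hld, ← hl', ← hc']
    rw [← hl'] at hl
    linear_combination ((15 / 16) + (3 / 4) * l + (-1 / 8) * l ^ 2 + (-1 / 4) * l ^ 3 + (-1 / 16) * l ^ 4 + (-9 / 4) * c' + (-3 / 4) * c' * l + (9 / 4) * c' * l ^ 2 + (3 / 4) * c' * l ^ 3 + (-3) * c' ^ 2 + (-6) * c' ^ 2 * l + (-3) * c' ^ 2 * l ^ 2 + 4 * c' ^ 3 + 4 * c' ^ 3 * l) * hl

theorem M2_eq (c : 𝓞 K8) : CM ((-(-1 + lam) + 4 * c : 𝓞 K8) : K8) (1 + (lam : K8)) •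
    WW (lam * (-(-1 + lam) + 4 * c)) = (M2 c).map (algebraMap (𝓞 K8) K8) := by
  have hl := lamK_sq
  have hu : (((CM ((-(-1 + lam) + 4 * c : 𝓞 K8) : K8) (1 + (lam : K8))).u⁻¹ : K8ˣ) : K8) =
      -1 / 2 := by
    rw [Units.val_inv_eq_inv_val]
    change ((-2 : K8))⁻¹ = -1 / 2
    norm_num
  have hd : ((-(-1 + lam) + 4 * c : 𝓞 K8) : K8) = -(-1 + (lam : K8)) + 4 * (c : K8) := by
    change algebraMap (𝓞 K8) K8 (-(-1 + lam) + 4 * c) = _
    rw [map_add, map_neg, map_add, map_neg, map_one, map_mul, map_ofNat]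
  have hld : ((lam * (-(-1 + lam) + 4 * c) : 𝓞 K8) : K8) =
      (lam : K8) * (-(-1 + (lam : K8)) + 4 * (c : K8)) := by
    rw [← hd]
    exact map_mul (algebraMap (𝓞 K8) K8) _ _
  have e2 : algebraMap (𝓞 K8) K8 (-2 + lam - 2 * c * (3 + lam)) =
      -2 + (lam : K8) - 2 * (c : K8) * (3 + (lam : K8)) := by
    simp only [map_add, map_sub, map_neg, map_mul, map_ofNat]
  have e3 : algebraMap (𝓞 K8) K8 (-(1 + lam)) = -(1 + (lam : K8)) := by
    simp only [map_add, map_neg, map_one]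
  have e4 : algebraMap (𝓞 K8) K8 (2 - 3 * lam + (2 * c * (1 - lam) + 4 * c ^ 2) * (4 + 2 * lam)) =
      2 - 3 * (lam : K8) + (2 * (c : K8) * (1 - (lam : K8)) + 4 * (c : K8) ^ 2) *
        (4 + 2 * (lam : K8)) := by
    simp only [map_add, map_sub, map_mul, map_one, map_ofNat, map_pow]
  have e6 : algebraMap (𝓞 K8) K8 (-(-1 - lam + (1 + lam) * (3 * (-1 - 2 * lam) * c +
      12 * (1 - lam) * c ^ 2 + 16 * c ^ 3))) = -(-1 - (lam : K8) + (1 + (lam : K8)) *
        (3 * (-1 - 2 * (lam : K8)) * (c : K8) + 12 * (1 - (lam : K8)) * (c : K8) ^ 2 +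
          16 * (c : K8) ^ 3)) := by
    simp only [map_add, map_neg, map_sub, map_mul, map_one, map_ofNat, map_pow]
  obtain ⟨l, hl'⟩ : ∃ l : K8, l = (lam : K8) := ⟨_, rfl⟩
  obtain ⟨c', hc'⟩ : ∃ c' : K8, c' = (c : K8) := ⟨_, rfl⟩
  ext
  · rw [variableChange_a₁, hu]
    simp only [WW, CM, M2, WeierstrassCurve.map]
    rw [map_neg]
    ring
  · rw [variableChange_a₂, hu]
    simp only [WW, CM, M2, WeierstrassCurve.map]
    rw [e2, hd, hld, ← hl', ← hc']
    rw [← hl'] at hl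
    linear_combination ((1 / 4)) * hl
  · rw [variableChange_a₃, hu]
    simp only [WW, CM, M2, WeierstrassCurve.map]
    rw [e3]
    ring
  · rw [variableChange_a₄, hu]
    simp only [WW, CM, M2, WeierstrassCurve.map]
    rw [e4, hd, hld, ← hl', ← hc']
    rw [← hl'] at hl
    linear_combination ((-5 / 8) + (3 / 4) * l + (-1 / 8) * l ^ 2 + (-1) * c' + 1 * c' * l + (-2) * c' ^ 2) * hl
  · rw [variableChange_a₆, hu]
    simp only [WW, CM, M2, WeierstrassCurve.map]
    rw [e6, hd, hld, ← hl', ← hc']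
    rw [← hl'] at hl
    linear_combination ((-11 / 16) + (-5 / 8) * l + (1 / 4) * l ^ 2 + (1 / 8) * l ^ 3 + (-1 / 16) * l ^ 4 + (-9 / 4) * c' + (-15 / 4) * c' * l + (-3 / 4) * c' * l ^ 2 + (3 / 4) * c' * l ^ 3 + 3 * c' ^ 2 + (-3) * c' ^ 2 * l ^ 2 + 4 * c' ^ 3 + 4 * c' ^ 3 * l) * hl

theorem disc_M (d : 𝓞 K8) (t : K8) {M : WeierstrassCurve (𝓞 K8)}
    (h : CM (d : K8) t • WW (lam * d) = M.map (algebraMap (𝓞 K8) K8)) : M.Δ = -d ^ 6 := by
  have hl := lamK_sq
  have h1 := congrArg WeierstrassCurve.Δ h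
  have hu : (((CM (d : K8) t).u⁻¹ : K8ˣ) : K8) = -1 / 2 := by
    rw [Units.val_inv_eq_inv_val]
    change ((-2 : K8))⁻¹ = -1 / 2
    norm_num
  have hld : ((lam * d : 𝓞 K8) : K8) = (lam : K8) * (d : K8) :=
    map_mul (algebraMap (𝓞 K8) K8) _ _
  rw [variableChange_Δ, hu, WeierstrassCurve.map_Δ, WW_delta, hld] at h1
  have h6 : (lam : K8) ^ 6 = -8 := by
    have e : (lam : K8) ^ 6 = ((lam : K8) ^ 2) ^ 3 := by ring
    rw [e, hl]
    norm_num
  have h2 : algebraMap (𝓞 K8) K8 M.Δ = algebraMap (𝓞 K8) K8 (-d ^ 6) := by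
    rw [← h1, map_neg, map_pow, mul_pow, h6]
    ring
  exact RingOfIntegers.coe_injective h2

/-! ### The number of points -/

/-- a supersingular curve over the field with two elements -/
theorem card_three {k : Type*} [Field k] (hk : Nat.card k = 2) (a b : k) :
    Nat.card (⟨0, a, 1, a, b⟩ : WeierstrassCurve k).toAffine.Point = 3 := by
  classical
  have hfin : Finite k := Nat.finite_of_card_ne_zero (by rw [hk]; norm_num)
  have h01 : ∀ x : k, x = 0 ∨ x = 1 := by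
    intro x
    by_contra hx
    push Not at hx
    have h1 : ({x, 0, 1} : Finset k).card = 3 := by
      rw [card_insert_of_notMem, card_insert_of_notMem, card_singleton]
      · rw [mem_singleton]
        exact zero_ne_one
      · simp [hx.1, hx.2]
    let _ := Fintype.ofFinite k
    have h2 := Finset.card_le_univ ({x, 0, 1} : Finset k)
    rw [h1, ← Nat.card_eq_fintype_card, hk] at h2
    omega
  have h2 : (2 : k) = 0 := by
    rcases h01 2 with h | h
    · exact h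
    · exfalso
      have h3 : (1 : k) = 0 := by linear_combination h
      exact one_ne_zero h3
  obtain ⟨W, hW⟩ : ∃ W : WeierstrassCurve k, W = ⟨0, a, 1, a, b⟩ := ⟨_, rfl⟩
  rw [← hW]
  have hns : ∀ x y : k, W.toAffine.Nonsingular x y ↔ W.toAffine.Equation x y := by
    intro x y
    rw [WeierstrassCurve.Affine.nonsingular_iff]
    constructor
    · exact fun h => h.1
    · intro h
      refine ⟨h, Or.inr ?_⟩
      rw [hW]
      change y ≠ -y - 0 * x - 1
      intro h3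
      have h4 : (1 : k) = 0 := by linear_combination h3 - y * h2
      exact one_ne_zero h4
  have heq : ∀ x y : k, W.toAffine.Equation x y ↔ (x = 0 ∧ b = 0) ∨ (x = 1 ∧ b = 1) := by
    intro x y
    rw [WeierstrassCurve.Affine.equation_iff, hW]
    change y ^ 2 + 0 * x * y + 1 * y = x ^ 3 + a * x ^ 2 + a * x + b ↔ _
    rcases h01 x with rfl | rfl
    · have e : y ^ 2 + 0 * 0 * y + 1 * y = 0 := by
        rcases h01 y with rfl | rfl
        · ring
        · linear_combination h2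
      rw [e]
      constructor
      · intro h
        exact Or.inl ⟨rfl, by linear_combination -h⟩
      · rintro (⟨-, h⟩ | ⟨h, -⟩)
        · rw [h]
          ring
        · exact absurd h zero_ne_one
    · have e : y ^ 2 + 0 * 1 * y + 1 * y = 0 := by
        rcases h01 y with rfl | rfl
        · ring
        · linear_combination h2
      rw [e]
      constructor
      · intro h
        exact Or.inr ⟨rfl, by linear_combination -h - (a + 1) * h2⟩
      · rintro (⟨h, -⟩ | ⟨-, h⟩)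
        · exact absurd h one_ne_zero
        · rw [h]
          linear_combination -(a + 1) * h2
  rw [Nat.card_congr (pointEquivOption W), Finite.card_option]
  have hc : Nat.card {p : k × k // W.toAffine.Nonsingular p.1 p.2} = 2 := by
    rw [Nat.card_eq_two_iff]
    rcases h01 b with hb | hb
    · refine ⟨⟨(0, 0), (hns _ _).2 ((heq _ _).2 (Or.inl ⟨rfl, hb⟩))⟩,
        ⟨(0, 1), (hns _ _).2 ((heq _ _).2 (Or.inl ⟨rfl, hb⟩))⟩, ?_, ?_⟩
      · intro h
        have h3 := congrArg (fun p => p.1.2) h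
        exact zero_ne_one h3
      · ext ⟨⟨x, y⟩, h⟩
        simp only [Set.mem_insert_iff, Set.mem_singleton_iff, Set.mem_univ, iff_true,
          Subtype.mk.injEq, Prod.mk.injEq]
        rcases (heq x y).1 ((hns x y).1 h) with ⟨h3, -⟩ | ⟨-, h4⟩
        · rcases h01 y with h5 | h5
          · exact Or.inl ⟨h3, h5⟩
          · exact Or.inr ⟨h3, h5⟩
        · rw [hb] at h4
          exact absurd h4 zero_ne_one
    · refine ⟨⟨(1, 0), (hns _ _).2 ((heq _ _).2 (Or.inr ⟨rfl, hb⟩))⟩,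
        ⟨(1, 1), (hns _ _).2 ((heq _ _).2 (Or.inr ⟨rfl, hb⟩))⟩, ?_, ?_⟩
      · intro h
        have h3 := congrArg (fun p => p.1.2) h
        exact zero_ne_one h3
      · ext ⟨⟨x, y⟩, h⟩
        simp only [Set.mem_insert_iff, Set.mem_singleton_iff, Set.mem_univ, iff_true,
          Subtype.mk.injEq, Prod.mk.injEq]
        rcases (heq x y).1 ((hns x y).1 h) with ⟨-, h4⟩ | ⟨h3, -⟩
        · rw [hb] at h4
          exact absurd h4 one_ne_zero
        · rcases h01 y with h5 | h5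
          · exact Or.inl ⟨h3, h5⟩
          · exact Or.inr ⟨h3, h5⟩
  rw [hc]

theorem card_quot_vl : Nat.card (𝓞 K8 ⧸ vl.asIdeal) = 2 := by
  have h := card_quot8 lam_ne_zero
  rw [Nz_lam] at h
  exact h

/-- the local polynomial from a model of this form -/
theorem loc_of_model {W : WeierstrassCurve K8} {C : VariableChange K8} {M : WeierstrassCurve (𝓞 K8)}
    (h : C • W = M.map (algebraMap (𝓞 K8) K8)) (hd : ¬ lam ∣ M.Δ) (h1 : lam ∣ M.a₁)
    (h3 : lam ∣ M.a₃ - 1) (h4 : lam ∣ M.a₄ - M.a₂) :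
    locPoly W vl = 1 + Polynomial.C 2 * Polynomial.X ^ 2 := by
  have hmem : ∀ x : 𝓞 K8, x ∈ vl.asIdeal ↔ lam ∣ x := fun x => Ideal.mem_span_singleton
  have hl := lt_locPoly W C M h vl (fun h' => hd ((hmem _).1 h'))
  have : vl.asIdeal.IsMaximal := vl.isMaximal
  let _ : Field (𝓞 K8 ⧸ vl.asIdeal) := Ideal.Quotient.field vl.asIdeal
  have hM : M.map (Ideal.Quotient.mk vl.asIdeal) = ⟨0, Ideal.Quotient.mk vl.asIdeal M.a₂, 1,
      Ideal.Quotient.mk vl.asIdeal M.a₂, Ideal.Quotient.mk vl.asIdeal M.a₆⟩ := by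
    refine WeierstrassCurve.ext ?_ rfl ?_ ?_ rfl
    · exact Ideal.Quotient.eq_zero_iff_mem.2 ((hmem _).2 h1)
    · change Ideal.Quotient.mk vl.asIdeal M.a₃ = 1
      rw [← map_one (Ideal.Quotient.mk vl.asIdeal), Ideal.Quotient.eq, hmem]
      exact h3
    · change Ideal.Quotient.mk vl.asIdeal M.a₄ = Ideal.Quotient.mk vl.asIdeal M.a₂
      rw [Ideal.Quotient.eq, hmem]
      exact h4
  have hn : nrm vl = 2 := by rw [← lt_card_quot, card_quot_vl]
  have hc := card_three card_quot_vl (Ideal.Quotient.mk vl.asIdeal M.a₂)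
    (Ideal.Quotient.mk vl.asIdeal M.a₆)
  rw [hl, hM, hc, hn]
  norm_num

/-- **The local factor at `lam`, good reduction.** -/
theorem lam_good {S : Finset Pg} (hA : AS S = 1) {v : HeightOneSpectrum (𝓞 K8)}
    (hv : lam ∈ v.asIdeal) :
    locPoly (WW (dW 1 0 S)) v = 1 + Polynomial.C 2 * Polynomial.X ^ 2 := by
  obtain rfl := eq_vl hv
  have hodd := dO_odd 1 S
  rw [dW_zero]
  rcases good_dO hA with h | h
  · rw [lam_pow4] at h
    obtain ⟨c, hc⟩ := h
    have e : dO 1 S = -(1 + lam) + 4 * c := by linear_combination hc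
    have h1 := M1_eq c
    rw [← e] at h1
    refine loc_of_model h1 ?_ ?_ ?_ ?_
    · rw [disc_M _ _ h1, dvd_neg]
      exact fun h' => hodd (lam_prime.dvd_of_dvd_pow h')
    · exact ⟨-1, by rw [M1]; ring⟩
    · exact ⟨lam, by
        rw [M1]
        linear_combination -lam_sq⟩
    · refine ⟨2 * lam - 1 - lam * ((-c * (1 + lam) + 2 * c ^ 2) * (4 + 2 * lam) + c * (3 + lam)),
        ?_⟩
      rw [M1]
      linear_combination ((-c * (1 + lam) + 2 * c ^ 2) * (4 + 2 * lam) + c * (3 + lam) - 2) * lam_sq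
  · rw [lam_pow4] at h
    obtain ⟨c, hc⟩ := h
    have e : dO 1 S = -(-1 + lam) + 4 * c := by linear_combination hc
    have h1 := M2_eq c
    rw [← e] at h1
    refine loc_of_model h1 ?_ ?_ ?_ ?_
    · rw [disc_M _ _ h1, dvd_neg]
      exact fun h' => hodd (lam_prime.dvd_of_dvd_pow h')
    · exact ⟨-1, by rw [M2]; ring⟩
    · exact ⟨lam - 1, by
        rw [M2]
        linear_combination -lam_sq⟩
    · refine ⟨-2 * lam - 4 - lam * ((c * (1 - lam) + 2 * c ^ 2) * (4 + 2 * lam) + c * (3 + lam)),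
        ?_⟩
      rw [M2]
      linear_combination ((c * (1 - lam) + 2 * c ^ 2) * (4 + 2 * lam) + c * (3 + lam) + 2) * lam_sq

end

end Pool.Agent.Lib.MP_1a91b9_ntW.L
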