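import Pool.Agent.Lib.MP_1a91b9_ntW.L.Sg8
import Pool.Agent.Lib.MP_1a91b9_ntW.A.Avg8
import Pool.Agent.Lib.MP_1a91b9_ntL.TwK

/-!
# Phase 6, `ℚ(√-2)`: the local factors of the curves `WW d` at the odd places

`loc8_eval`: at `(q)`, `q : Pg`, `d = dW k j S`, the local factor of `WW d` is the one of the
character `conj(q) X8 k j S q` (`0` at the primes of `S`).
-/

set_option autoImplicit false

namespace Pool.Agent.Lib.MP_1a91b9_ntW.L

open NumberField IsDedekindDomain WeierstrassCurve Finset WithZero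
  Pool.Agent.Lib.MP_1a91b9_nuT Pool.Agent.Lib.MP_1a91b9_nuX Pool.Agent.Lib.MP_1a91b9_ntW
  Pool.Agent.Lib.MP_1a91b9_nt
open Pool.Agent.Lib.MP_1a91b9_ntQ (em em_add em_mul em_pow em_sub em_neg em_zero em_one em_ne em_prod
  em_ofNat em_intCast)

noncomputable section

/-- the change of variables from `WW d` to the twist of `E` by `-d` -/
def Cd (d : 𝓞 K8) : VariableChange K8 := ⟨Units.mk0 6⁻¹ (by norm_num), -(4 / 3) * (d : K8), 0, 0⟩

theorem Cd_smul (d : 𝓞 K8) : Cd d • WW d =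
    ⟨0, 0, 0, (CD.A : K8) * ((-d : 𝓞 K8) : K8) ^ 2, (CD.B : K8) * ((-d : 𝓞 K8) : K8) ^ 3⟩ := by
  have hu : (((Cd d).u⁻¹ : K8ˣ) : K8) = 6 := by
    rw [Units.val_inv_eq_inv_val]
    change ((6 : K8)⁻¹)⁻¹ = 6
    rw [inv_inv]
  have e1 : (((-d : 𝓞 K8)) : K8) = -(d : K8) := by
    change algebraMap (𝓞 K8) K8 (-d) = -algebraMap (𝓞 K8) K8 d
    rw [map_neg]
  ext
  · rw [WeierstrassCurve.variableChange_a₁, hu]
    simp [WW, Cd]
  · rw [WeierstrassCurve.variableChange_a₂, hu]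
    simp only [WW, Cd]
    ring
  · rw [WeierstrassCurve.variableChange_a₃, hu]
    simp [WW, Cd]
  · rw [WeierstrassCurve.variableChange_a₄, hu]
    simp only [WW, Cd, e1, A8]
    push_cast
    ring
  · rw [WeierstrassCurve.variableChange_a₆, hu]
    simp only [WW, Cd, e1, B8]
    push_cast
    ring

/-! ### The sign -/

theorem em_sg (x : 𝓞 K8) : em (sg x) = sn (aa x + ll x) := by
  unfold sg
  rcases sn_cases (aa x + ll x) with h | h
  · rw [if_pos h, h, sn_zero, em_one]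
  · rw [if_neg (by rw [h]; exact one_ne_zero), h, sn_one, em_neg, em_one]

theorem cq_prod (q : Pg) (S : Finset Pg) : cq q (DD S) = ∏ p ∈ S, cq q p.1 := by
  rw [cq, DD, qc_prod, Int.cast_prod]
  rfl

theorem cq_recip {q p : Pg} (h : p ≠ q) : cq q p.1 = cq p q.1 * sn (aa p.1 * aa q.1) := by
  rw [cq_cc (Pg_not_dvd h.symm), cq_cc (Pg_not_dvd h), ← sn_add]
  rw [cc_recip q p h.symm, mul_comm (aa q.1)]

theorem cq_DD {q : Pg} {S : Finset Pg} (h : q ∉ S) :
    cq q (DD S) = (∏ p ∈ S, cq p q.1) * sn (AS S * aa q.1) := by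
  rw [cq_prod, AS, sum_mul, sn_sum, ← prod_mul_distrib]
  refine prod_congr rfl fun p hp => ?_
  exact cq_recip fun h' => h (h' ▸ hp)

theorem not_dvd_dW {q : Pg} {S : Finset Pg} (h : q ∉ S) (k j : ZMod 2) : ¬ q.1 ∣ dW k j S := by
  intro hd
  rcases q.2.1.dvd_or_dvd hd with h1 | h1
  · rcases q.2.1.dvd_or_dvd h1 with h2 | h2
    · exact not_dvd_neg_one q (q.2.1.dvd_of_dvd_pow h2)
    · exact not_dvd_lam q (q.2.1.dvd_of_dvd_pow h2)
  · obtain ⟨p, hp, h3⟩ := (q.2.1.dvd_finset_prod_iff _).1 h1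
    have h4 := Pg_eq h3
    rw [← h4] at hp
    exact h hp

/-- **The sign of the Hecke character of `WW d`.** -/
theorem X8_sign (k j : ZMod 2) {q : Pg} {S : Finset Pg} (h : q ∉ S) :
    cq q (-dW k j S) * sn (aa q.1 + ll q.1) = X8 k j S q.1 := by
  have hk : cq q ((-1) ^ k.val) = sn (k * aa q.1) := by
    rcases sn_cases k with rfl | rfl
    · rw [ZMod.val_zero, pow_zero, cq_one, zero_mul, sn_zero]
    · have h : (1 : ZMod 2).val = 1 := rfl
      rw [h, pow_one, cq_neg_one, one_mul]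
  have hj : cq q (lam ^ (1 - j.val)) = sn ((1 + j) * ll q.1) := by
    rcases sn_cases j with rfl | rfl
    · rw [ZMod.val_zero, pow_one, cq_lam, add_zero, one_mul]
    · have h : (1 : ZMod 2).val = 1 := rfl
      have h2 : (1 : ZMod 2) + 1 = 0 := rfl
      rw [h, Nat.sub_self, pow_zero, cq_one, h2, zero_mul, sn_zero]
  rw [dW, cq_neg, cq_mul, cq_mul, hk, hj, cq_DD h, X8, th8]
  have key : ∀ a l k j A : ZMod 2, a + (k * a + (1 + j) * l) + A * a + (a + l) =
      (k + A) * a + j * l := by decide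
  have h3 := key (aa q.1) (ll q.1) k j (AS S)
  rw [← h3, sn_add _ (aa q.1 + ll q.1), sn_add _ (AS S * aa q.1),
    sn_add (aa q.1) (k * aa q.1 + (1 + j) * ll q.1), sn_add (k * aa q.1)]
  ring

theorem X8_conj (k j : ZMod 2) (S : Finset Pg) (x : 𝓞 K8) :
    (starRingEnd ℂ) (X8 k j S x) = X8 k j S x := by
  have h1 : ∀ z : ZMod 2, (starRingEnd ℂ) (sn z) = sn z := fun z => by
    rcases sn_cases z with rfl | rfl
    · rw [sn_zero, map_one]
    · rw [sn_one, map_neg, map_one]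
  have h2 : ∀ (q : Pg), (starRingEnd ℂ) (cq q x) = cq q x := fun q => by
    rw [cq, map_intCast]
  rw [X8, map_mul, map_prod, th8, h1]
  congr 1
  exact prod_congr rfl fun q _ => h2 q

/-! ### The local factors -/

theorem val_dW {q : Pg} {S : Finset Pg} (h : q ∈ S) (k j : ZMod 2) :
    ((plq q).valuation K8 (((-dW k j S : 𝓞 K8)) : K8)) = exp (-1 : ℤ) := by
  have hle : ∀ x : 𝓞 K8, ¬ q.1 ∣ x → (plq q).valuation K8 (x : K8) = 1 := fun x hx =>
    (HeightOneSpectrum.valuation_eq_one_iff_notMem (plq q)).2 fun hm => hx (mem_plq.1 hm)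
  have hq : (plq q).valuation K8 (q.1 : K8) = exp (-1 : ℤ) := by
    rw [HeightOneSpectrum.valuation_of_algebraMap,
      HeightOneSpectrum.intValuation_singleton _ q.2.1.ne_zero rfl]
  have hrest : ∃ r : 𝓞 K8, -dW k j S = r * q.1 ∧ ¬ q.1 ∣ r := by
    refine ⟨-dW k j (S.erase q), ?_, ?_⟩
    · have h1 : DD S = q.1 * DD (S.erase q) := by
        rw [DD, DD, mul_prod_erase S (fun q : Pg => q.1) h]
      rw [dW, dW, h1]
      ring
    · rw [dvd_neg]
      exact not_dvd_dW (notMem_erase q S) k j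
  obtain ⟨r, hr, hr1⟩ := hrest
  rw [hr]
  change (plq q).valuation K8 (algebraMap (𝓞 K8) K8 (r * q.1)) = _
  rw [map_mul, map_mul]
  have h1 := hle r hr1
  change (plq q).valuation K8 (algebraMap (𝓞 K8) K8 r) = 1 at h1
  rw [h1, one_mul]
  exact hq

theorem eq_plq {v : HeightOneSpectrum (𝓞 K8)} {q : Pg} (h : v.asIdeal = Ideal.span {q.1}) :
    v = plq q := HeightOneSpectrum.ext h

/-- **The local factor of `WW d`** at the place of `q : Pg`. -/
theorem loc8_eval (k j : ZMod 2) (S : Finset Pg) (q : Pg) (v : HeightOneSpectrum (𝓞 K8))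
    (hv : v.asIdeal = Ideal.span {q.1}) (x : ℂ) :
    Polynomial.aeval x (locPoly (WW (dW k j S)) v) =
      (1 - (starRingEnd ℂ) (em q.1) * X8 k j S q.1 * x) *
        (1 - (starRingEnd ℂ) ((starRingEnd ℂ) (em q.1) * X8 k j S q.1) * x) := by
  obtain rfl := eq_plq hv
  by_cases hq : q ∈ S
  · have hX : X8 k j S q.1 = 0 := by
      rw [X8, prod_eq_zero hq (cq_of_dvd dvd_rfl), mul_zero]
    have h1 : locPoly (WW (dW k j S)) (plq q) = 1 := by
      have hv1 := val_dW hq k j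
      refine Pool.Agent.Lib.MP_1a91b9_ntL.locK_tw_bad (v := plq q) (f_notMem q)
        (d := ((-dW k j S : 𝓞 K8) : K8)) ?_ ?_ (WW (dW k j S)) (Cd (dW k j S))
        (Cd_smul (dW k j S))
      · intro h0
        rw [h0, map_zero] at hv1
        exact exp_ne_zero hv1.symm
      · intro hsq
        have h2 : IsSquare ((plq q).valuation K8 (((-dW k j S : 𝓞 K8)) : K8)) := hsq
        rw [hv1] at h2
        exact Pool.Agent.Lib.MP_1a91b9_ntL.not_sq_exp (by norm_num) h2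
    rw [h1, hX]
    simp
  · have hd := not_dvd_dW hq k j
    have hd' : ¬ q.1 ∣ -dW k j S := by rwa [dvd_neg]
    have he : (qc q (-dW k j S) = 1 ∧ ∃ t : 𝓞 K8, t ^ 2 - -dW k j S ∈ (plq q).asIdeal) ∨
        (qc q (-dW k j S) = -1 ∧ ¬ ∃ t : 𝓞 K8, t ^ 2 - -dW k j S ∈ (plq q).asIdeal) := by
      have hmem : (∃ t : 𝓞 K8, t ^ 2 - -dW k j S ∈ (plq q).asIdeal) ↔
          ∃ t : 𝓞 K8, q.1 ∣ t ^ 2 - -dW k j S :=
        ⟨fun ⟨t, ht⟩ => ⟨t, mem_plq.1 ht⟩, fun ⟨t, ht⟩ => ⟨t, mem_plq.2 ht⟩⟩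
      rw [hmem, qc_of_not hd']
      rcases Pool.Agent.Lib.MP_1a91b9_ntH.R.qs_or (-dW k j S) q.1 with h2 | h2
      · exact Or.inl ⟨h2, (Pool.Agent.Lib.MP_1a91b9_ntH.R.qs_eq_one_iff _ _).1 h2⟩
      · refine Or.inr ⟨h2, fun h3 => ?_⟩
        rw [(Pool.Agent.Lib.MP_1a91b9_ntH.R.qs_eq_one_iff _ _).2 h3] at h2
        norm_num at h2
    have h1 := Pool.Agent.Lib.MP_1a91b9_ntL.locK_tw_eval (v := plq q) (f_notMem q) (two_notMem q)
      (d := -dW k j S) (fun h => hd' (mem_plq.1 h)) (WW (dW k j S)) (Cd (dW k j S))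
      (Cd_smul (dW k j S)) (e := qc q (-dW k j S)) he x
    have h2 : embK ((ps (plq q).asIdeal : 𝓞 K8) : K8) = sn (aa q.1 + ll q.1) * em q.1 := by
      have h3 : ps (plq q).asIdeal = sg q.1 * q.1 := ps_all q.2.2
      have h4 : em (ps (plq q).asIdeal) = sn (aa q.1 + ll q.1) * em q.1 := by
        have h5 : em (ps (plq q).asIdeal) = em (sg q.1 * q.1) := congrArg em h3
        rw [h5, ← em_sg]
        exact em_mul _ _
      exact h4
    have hs := X8_sign k j hq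
    have hc : (starRingEnd ℂ) (sn (aa q.1 + ll q.1)) = sn (aa q.1 + ll q.1) := by
      rcases sn_cases (aa q.1 + ll q.1) with h | h
      · rw [h, sn_zero, map_one]
      · rw [h, sn_one, map_neg, map_one]
    have hcq : ((qc q (-dW k j S) : ℤ) : ℂ) = cq q (-dW k j S) := rfl
    rw [h2, hcq, map_mul, hc] at h1
    rw [h1, map_mul, X8_conj, Complex.conj_conj, ← hs]
    ring

end

end Pool.Agent.Lib.MP_1a91b9_ntW.L
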