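import Pool.Agent.Lib.MP_1a91b9_ntW.L.Ser8
import Pool.Agent.Lib.MP_1a91b9_ntW.L.Loc8
import Pool.Agent.Lib.MP_1a91b9_ntW.L.LamT

/-!
# Phase 6, `ℚ(√-2)`: the L-series of the curves `WW (dW k j S)`

`ser_bad`, `ser_good`: the L-series of `WW (dW k j S)` continues to an entire function, its value at
`1` is `|LG Pr (X8 k j S) 1|²`, respectively `2 / 3` of it if the curve has good reduction at `lam`
(`j = 0`, `k = 1`, `AS S = 1`).
-/

set_option autoImplicit false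

namespace Pool.Agent.Lib.MP_1a91b9_ntW.L

open NumberField IsDedekindDomain WeierstrassCurve Finset
  Pool.Agent.Lib.MP_1a91b9_nuT Pool.Agent.Lib.MP_1a91b9_nuX Pool.Agent.Lib.MP_1a91b9_ntW
  Pool.Agent.Lib.MP_1a91b9_nt
open Pool.Agent.Lib.MP_1a91b9_ntQ (em em_add em_mul em_pow em_sub em_neg em_zero em_one em_ne em_prod
  em_ofNat em_intCast)

noncomputable section

theorem mul_conj_sq (z : ℂ) : z * (starRingEnd ℂ) z = ((‖z‖ ^ 2 : ℝ) : ℂ) := by
  rw [Complex.mul_conj, Complex.normSq_eq_norm_sq]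

/-- **The L-series of `WW (dW k j S)`, bad reduction at `lam`.** -/
theorem ser_bad {k j : ZMod 2} {S : Finset Pg} (h : ¬ (j = 0 ∧ k = 1 ∧ AS S = 1)) :
    ∃ g : ℂ → ℂ, Differentiable ℂ g ∧
      (∀ s : ℂ, 3 / 2 < s.re → g s = (WW (dW k j S)).LSeries s) ∧
      g 1 = ((‖LG Pr (X8 k j S) 1‖ ^ 2 : ℝ) : ℂ) := by
  obtain ⟨g, h1, h2, h3⟩ := ser8_gen (W := WW (dW k j S)) (X8_chr k j S)
    (fun v hv => lam_bad h hv) (fun q v hv x => loc8_eval k j S q v hv x)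
  exact ⟨g, h1, h2, h3.trans (mul_conj_sq _)⟩

/-- **The L-series of `WW (dW k j S)`, good reduction at `lam`.** -/
theorem ser_good {S : Finset Pg} (hA : AS S = 1) :
    ∃ g : ℂ → ℂ, Differentiable ℂ g ∧
      (∀ s : ℂ, 3 / 2 < s.re → g s = (WW (dW 1 0 S)).LSeries s) ∧
      g 1 = ((2 / 3 * ‖LG Pr (X8 1 0 S) 1‖ ^ 2 : ℝ) : ℂ) := by
  obtain ⟨g, h1, h2, h3⟩ := ser8_good (W := WW (dW 1 0 S)) hA
    (fun v hv x => by
      have hl : locPoly (WW (dW 1 0 S)) v = 1 + Polynomial.C 2 * Polynomial.X ^ 2 := lam_good hA hv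
      have e : Polynomial.aeval x (locPoly (WW (dW 1 0 S)) v) =
          Polynomial.aeval x (1 + Polynomial.C 2 * Polynomial.X ^ 2 : Polynomial ℤ) :=
        congrArg _ hl
      refine e.trans ?_
      rw [map_add, map_mul, map_one, map_pow, Polynomial.aeval_X, Polynomial.aeval_C]
      norm_num)
    (fun q v hv x => by
      have hl := loc8_eval 1 0 S q v hv x
      rw [X8_good hA] at hl
      exact hl)
  refine ⟨g, h1, h2, ?_⟩
  obtain ⟨e, he, hL⟩ := LG_good hA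
  have hn := norm_good he
  have h4 := mul_conj_sq (LG Pr (X8 1 0 S) 1)
  rw [hL, map_mul] at h4
  rw [h3]
  push_cast at h4 ⊢
  rw [hL, ← h4]
  linear_combination (-(2 / 3) * (LG (PU S) oneX 1 * (starRingEnd ℂ) (LG (PU S) oneX 1))) * hn

/-- **Theorem L**: if the value of the Hecke L-function is not zero, neither is the one of the
curve. -/
theorem LW_ne (k j : ZMod 2) (S : Finset Pg) (h : LG Pr (X8 k j S) 1 ≠ 0) :
    ∃ g : ℂ → ℂ, Differentiable ℂ g ∧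
      (∀ s : ℂ, 3 / 2 < s.re → g s = (WW (dW k j S)).LSeries s) ∧ g 1 ≠ 0 := by
  have hp : 0 < ‖LG Pr (X8 k j S) 1‖ ^ 2 := by
    have := norm_pos_iff.2 h
    positivity
  by_cases hc : j = 0 ∧ k = 1 ∧ AS S = 1
  · obtain ⟨rfl, rfl, hA⟩ := hc
    obtain ⟨g, h1, h2, h3⟩ := ser_good hA
    refine ⟨g, h1, h2, ?_⟩
    rw [h3, Complex.ofReal_ne_zero]
    positivity
  · obtain ⟨g, h1, h2, h3⟩ := ser_bad hc
    refine ⟨g, h1, h2, ?_⟩
    rw [h3, Complex.ofReal_ne_zero]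
    exact hp.ne'

end

end Pool.Agent.Lib.MP_1a91b9_ntW.L
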