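import Pool.Agent.Lib.MP_1a91b9_nuX.GL.AbsF

/-!
# The Frobenius automorphisms and the square roots

`σ` a Frobenius automorphism at an odd place `P`, `y ^ 2 = β`, `β` a unit at `P`: `σ y = y` if `β` is a
square modulo `P`, otherwise `σ y = -y`.
-/

set_option autoImplicit false

namespace Pool.Agent.Lib.MP_1a91b9_ntW.L

open NumberField IsDedekindDomain
open Pool.Agent.Lib.MP_1a91b9_nuX.GL (Abv IsFr abv_lt abv_eq)

variable {k Ω : Type*} [Field k] [NumberField k] [Field Ω] [Algebra k Ω]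

/-- elements of a prime ideal have value less than one -/
theorem mem_lt {P : HeightOneSpectrum (𝓞 k)} {V : ValuationSubring Ω} (hV : Abv P V) {x : 𝓞 k}
    (hx : x ∈ P.asIdeal) : V.valuation (algebraMap k Ω (x : k)) < 1 := by
  rw [abv_lt hV]
  exact (P.valuation_lt_one_iff_mem _).2 hx

theorem notMem_eq {P : HeightOneSpectrum (𝓞 k)} {V : ValuationSubring Ω} (hV : Abv P V) {x : 𝓞 k}
    (hx : x ∉ P.asIdeal) : V.valuation (algebraMap k Ω (x : k)) = 1 := by
  rw [abv_eq hV]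
  exact (P.valuation_eq_one_iff_notMem).2 hx

/-- Euler's criterion modulo `P` -/
theorem euler_P (P : HeightOneSpectrum (𝓞 k)) (h2 : (2 : 𝓞 k) ∉ P.asIdeal) {β : 𝓞 k}
    (hβ : β ∉ P.asIdeal) :
    ((∃ s : 𝓞 k, s ^ 2 - β ∈ P.asIdeal) ∧ β ^ (Ideal.absNorm P.asIdeal / 2) - 1 ∈ P.asIdeal) ∨
      ((¬ ∃ s : 𝓞 k, s ^ 2 - β ∈ P.asIdeal) ∧
        β ^ (Ideal.absNorm P.asIdeal / 2) + 1 ∈ P.asIdeal) := by
  classical
  have hmax : P.asIdeal.IsMaximal := P.isMaximal
  let F := 𝓞 k ⧸ P.asIdeal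
  letI : Field F := Ideal.Quotient.field P.asIdeal
  haveI : Finite F := Ideal.finiteQuotientOfFreeOfNeBot P.asIdeal P.ne_bot
  letI : Fintype F := Fintype.ofFinite F
  let π : 𝓞 k →+* F := Ideal.Quotient.mk P.asIdeal
  have hcard : Fintype.card F = Ideal.absNorm P.asIdeal := by
    rw [← Nat.card_eq_fintype_card]
    rfl
  have hm : ∀ x : 𝓞 k, π x = 0 ↔ x ∈ P.asIdeal := fun x => Ideal.Quotient.eq_zero_iff_mem
  have hchar : ringChar F ≠ 2 := by
    intro hc
    apply h2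
    rw [← hm, map_ofNat]
    have h3 : ((ringChar F : ℕ) : F) = 0 := ringChar.Nat.cast_ringChar
    rw [hc] at h3
    exact_mod_cast h3
  have hβ0 : π β ≠ 0 := fun h => hβ ((hm β).1 h)
  have hsq : IsSquare (π β) ↔ ∃ s : 𝓞 k, s ^ 2 - β ∈ P.asIdeal := by
    constructor
    · rintro ⟨t, ht⟩
      obtain ⟨s, rfl⟩ := Ideal.Quotient.mk_surjective t
      refine ⟨s, ?_⟩
      rw [← hm, map_sub, map_pow, ht, sq]
      exact sub_self _
    · rintro ⟨s, hs⟩
      refine ⟨π s, ?_⟩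
      rw [← hm, map_sub, map_pow, sub_eq_zero] at hs
      rw [← hs, sq]
  have h3 := FiniteField.isSquare_iff hchar hβ0
  rw [hcard] at h3
  rcases FiniteField.pow_dichotomy hchar hβ0 with h | h
  · rw [hcard] at h
    refine Or.inl ⟨hsq.1 (h3.2 h), ?_⟩
    rw [← hm, map_sub, map_pow, map_one, h, sub_self]
  · rw [hcard] at h
    refine Or.inr ⟨fun h4 => ?_, ?_⟩
    · have h5 := h3.1 (hsq.2 h4)
      rw [h] at h5
      exact Ring.neg_one_ne_one_of_char_ne_two hchar h5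
    · rw [← hm, map_add, map_pow, map_one, h, neg_add_cancel]

/-- the norm of an odd place is odd -/
theorem odd_norm (P : HeightOneSpectrum (𝓞 k)) (h2 : (2 : 𝓞 k) ∉ P.asIdeal) :
    Odd (Ideal.absNorm P.asIdeal) := by
  rw [← Nat.not_even_iff_odd]
  intro he
  apply h2
  have hmem : ((Ideal.absNorm P.asIdeal : ℕ) : 𝓞 k) ∈ P.asIdeal := Ideal.absNorm_mem _
  have hprime : P.asIdeal.IsPrime := P.isPrime
  obtain ⟨p, n, hp, hn, hpn⟩ : ∃ p n : ℕ, p.Prime ∧ 0 < n ∧ p ^ n = Ideal.absNorm P.asIdeal := by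
    classical
    have hmax : P.asIdeal.IsMaximal := P.isMaximal
    let F := 𝓞 k ⧸ P.asIdeal
    letI : Field F := Ideal.Quotient.field P.asIdeal
    haveI : Finite F := Ideal.finiteQuotientOfFreeOfNeBot P.asIdeal P.ne_bot
    letI : Fintype F := Fintype.ofFinite F
    obtain ⟨p, _, n, hp, hc⟩ := FiniteField.card' F
    refine ⟨p, n, hp, n.pos, ?_⟩
    rw [← hc, ← Nat.card_eq_fintype_card]
    rfl
  have h2p : 2 ∣ p := by
    have h3 : 2 ∣ p ^ n := by
      rw [hpn]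
      exact he.two_dvd
    exact Nat.prime_two.dvd_of_dvd_pow h3
  have hp2 : p = 2 := ((Nat.prime_dvd_prime_iff_eq Nat.prime_two hp).1 h2p).symm
  subst hp2
  rw [← hpn] at hmem
  push_cast at hmem
  exact hprime.mem_of_pow_mem _ hmem

/-- **Frobenius automorphisms and square roots.** -/
theorem fr_sqrt {P : HeightOneSpectrum (𝓞 k)} (h2 : (2 : 𝓞 k) ∉ P.asIdeal)
    {V : ValuationSubring Ω} (hV : Abv P V) {σ : Ω ≃ₐ[k] Ω}
    (hσ : IsFr V (Ideal.absNorm P.asIdeal) σ) {β : 𝓞 k} (hβ : β ∉ P.asIdeal) {y : Ω}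
    (hy : y ^ 2 = algebraMap k Ω (β : k)) :
    ((∃ s : 𝓞 k, s ^ 2 - β ∈ P.asIdeal) ∧ σ y = y) ∨
      ((¬ ∃ s : 𝓞 k, s ^ 2 - β ∈ P.asIdeal) ∧ σ y = -y) := by
  have hvb := notMem_eq hV hβ
  have hy1 : V.valuation y = 1 := by
    rw [← hy, map_pow] at hvb
    rcases lt_trichotomy (V.valuation y) 1 with h | h | h
    · exact absurd hvb (pow_lt_one₀ zero_le h two_ne_zero).ne
    · exact h
    · exact absurd hvb (one_lt_pow₀ h two_ne_zero).ne'
  obtain ⟨m, hm⟩ := odd_norm P h2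
  have hdiv : Ideal.absNorm P.asIdeal / 2 = m := by omega
  have h2v : V.valuation (2 : Ω) = 1 := by
    have h := notMem_eq hV h2
    have e : algebraMap k Ω (((2 : 𝓞 k) : 𝓞 k) : k) = 2 := by
      change algebraMap k Ω (algebraMap (𝓞 k) k 2) = 2
      rw [map_ofNat, map_ofNat]
    rwa [e] at h
  have hyN : y ^ Ideal.absNorm P.asIdeal = y * algebraMap k Ω ((β ^ m : 𝓞 k) : k) := by
    have e : ((β ^ m : 𝓞 k) : k) = (β : k) ^ m := map_pow (algebraMap (𝓞 k) k) β m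
    rw [hm, pow_succ, pow_mul, hy, e, map_pow, mul_comm]
  have hfr := hσ y hy1.le
  rw [hyN] at hfr
  have hsq : (σ y) ^ 2 = y ^ 2 := by rw [← map_pow, hy, σ.commutes]
  have hor : σ y = y ∨ σ y = -y := sq_eq_sq_iff_eq_or_eq_neg.1 hsq
  have h2y : V.valuation (2 * y) = 1 := by rw [map_mul, h2v, hy1, one_mul]
  rcases euler_P P h2 hβ with ⟨h3, h4⟩ | ⟨h3, h4⟩
  · left
    refine ⟨h3, ?_⟩
    rcases hor with h | h
    · exact h
    · exfalso
      rw [hdiv] at h4
      have h5 := mem_lt hV h4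
      have e : ((β ^ m - 1 : 𝓞 k) : k) = ((β ^ m : 𝓞 k) : k) - 1 := by
        change algebraMap (𝓞 k) k _ = algebraMap (𝓞 k) k _ - 1
        rw [map_sub, map_one]
      rw [e, map_sub, map_one] at h5
      obtain ⟨t, ht⟩ : ∃ t, t = algebraMap k Ω ((β ^ m : 𝓞 k) : k) := ⟨_, rfl⟩
      rw [← ht] at h5 hfr
      rw [h] at hfr
      have e2 : 2 * y = -(-y - y * t) - y * (t - 1) := by ring
      rw [e2] at h2y
      have h6 : V.valuation (-(-y - y * t) - y * (t - 1)) < 1 := by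
        refine (V.valuation.map_sub _ _).trans_lt (max_lt ?_ ?_)
        · rwa [Valuation.map_neg]
        · rwa [map_mul, hy1, one_mul]
      exact h6.ne h2y
  · right
    refine ⟨h3, ?_⟩
    rcases hor with h | h
    · exfalso
      rw [hdiv] at h4
      have h5 := mem_lt hV h4
      have e : ((β ^ m + 1 : 𝓞 k) : k) = ((β ^ m : 𝓞 k) : k) + 1 := by
        change algebraMap (𝓞 k) k _ = algebraMap (𝓞 k) k _ + 1
        rw [map_add, map_one]
      rw [e, map_add, map_one] at h5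
      obtain ⟨t, ht⟩ : ∃ t, t = algebraMap k Ω ((β ^ m : 𝓞 k) : k) := ⟨_, rfl⟩
      rw [← ht] at h5 hfr
      rw [h] at hfr
      have e2 : 2 * y = (y - y * t) + y * (t + 1) := by ring
      rw [e2] at h2y
      have h6 : V.valuation ((y - y * t) + y * (t + 1)) < 1 := by
        refine (V.valuation.map_add _ _).trans_lt (max_lt hfr ?_)
        rwa [map_mul, hy1, one_mul]
      exact h6.ne h2y
    · exact h

end Pool.Agent.Lib.MP_1a91b9_ntW.L
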