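import Pool.Agent.Lib.MP_1a91b9_ntW.R.Inst
import Pool.Agent.Lib.MP_1a91b9_nuX.HW.Top
import Pool.Agent.Lib.MP_1a91b9_nuX.GL.Loc

/-!
# Phase 6, `ℚ(√-2)`: the Hecke character of the curve `W_{-1}`, its bad places

`E K8 : y² = x³ - 4320 x - 96768` is isomorphic to `WW (-1)`; a place at which it has bad reduction is
above `2`.
-/

set_option autoImplicit false

namespace Pool.Agent.Lib.MP_1a91b9_ntW.L

open NumberField IsDedekindDomain WeierstrassCurve Pool.Agent.Lib.MP_1a91b9_nuT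
  Pool.Agent.Lib.MP_1a91b9_nuX Pool.Agent.Lib.MP_1a91b9_ntW

noncomputable section

theorem tr8 : (CD.tr : ℤ) = 0 := rfl

theorem nm8 : (CD.nm : ℤ) = 2 := rfl

theorem A8 : (CD.A : ℤ) = -4320 := rfl

theorem B8 : (CD.B : ℤ) = -96768 := rfl

theorem mem_q8 : ((CD.tr, CD.nm) : ℤ × ℤ) ∈ UF.qList := by
  rw [tr8, nm8]
  simp [UF.qList]

theorem ellK8 : GL.EllK := HW.ellK_all (Or.inl mem_q8)

theorem exists_hd8 : ∃ (f : 𝓞 K) (ps : Ideal (𝓞 K) → 𝓞 K), HDat f ps :=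
  HW.hdat_all (Or.inl mem_q8)

/-- the Hecke character of the curve -/
instance hc8 : HC where
  f := exists_hd8.choose
  ps := exists_hd8.choose_spec.choose
  hd := exists_hd8.choose_spec.choose_spec

/-- the change of variables to `WW (-1)` -/
def C0 : VariableChange K8 := ⟨Units.mk0 6 (by norm_num), -48, 0, 0⟩

theorem C0_smul : C0 • (E K8 : WeierstrassCurve K8) = WW (-1) := by
  have hu : ((C0.u⁻¹ : K8ˣ) : K8) = 6⁻¹ := by
    rw [Units.val_inv_eq_inv_val]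
    rfl
  have e1 : (((-1 : 𝓞 K8)) : K8) = -1 := by
    change algebraMap (𝓞 K8) K8 (-1) = -1
    rw [map_neg, map_one]
  ext
  · rw [WeierstrassCurve.variableChange_a₁, hu]
    simp [E, WW, C0]
  · rw [WeierstrassCurve.variableChange_a₂, hu]
    simp only [E, WW, C0, e1]
    norm_num
  · rw [WeierstrassCurve.variableChange_a₃, hu]
    simp [E, WW, C0]
  · rw [WeierstrassCurve.variableChange_a₄, hu]
    simp only [E, WW, C0, e1, cA, A8]
    norm_num
  · rw [WeierstrassCurve.variableChange_a₆, hu]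
    simp only [E, WW, C0, cA, cB, A8, B8]
    norm_num

/-- the curve has good reduction at the odd places -/
theorem good_odd (P : HeightOneSpectrum (𝓞 K8)) (h2 : (2 : 𝓞 K8) ∉ P.asIdeal) :
    ∃ C : VariableChange K8, GM.GoodW (P.valuation K8) (C • (E K8 : WeierstrassCurve K8)) := by
  refine ⟨C0, ?_⟩
  rw [C0_smul]
  have hle : ∀ x : 𝓞 K8, P.valuation K8 (x : K8) ≤ 1 := fun x => P.valuation_le_one x
  have e4 : (WW (-1)).a₂ = ((-4 : 𝓞 K8) : K8) := by
    change 4 * algebraMap (𝓞 K8) K8 (-1) = algebraMap (𝓞 K8) K8 (-4)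
    rw [map_neg, map_neg, map_one, map_ofNat]
    ring
  have e2 : (WW (-1)).a₄ = ((2 : 𝓞 K8) : K8) := by
    change 2 * (algebraMap (𝓞 K8) K8 (-1)) ^ 2 = algebraMap (𝓞 K8) K8 2
    rw [map_neg, map_one, map_ofNat]
    ring
  refine ⟨⟨?_, ?_, ?_, ?_, ?_⟩, ?_⟩
  · exact (map_zero (P.valuation K8)).trans_le zero_le
  · rw [e4]
    exact hle _
  · exact (map_zero (P.valuation K8)).trans_le zero_le
  · rw [e2]
    exact hle _
  · exact (map_zero (P.valuation K8)).trans_le zero_le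
  · have e : (WW (-1)).Δ = (((2 : 𝓞 K8) ^ 9 : 𝓞 K8) : K8) := by
      rw [WW_delta]
      change 512 * (algebraMap (𝓞 K8) K8 (-1)) ^ 6 = algebraMap (𝓞 K8) K8 (2 ^ 9)
      rw [map_neg, map_one, map_pow, map_ofNat]
      norm_num
    rw [e]
    exact (P.valuation_eq_one_iff_notMem).2 fun h => h2 (P.isPrime.mem_of_pow_mem _ h)

/-- the bad places are above `2` -/
theorem two_mem_of_f {P : HeightOneSpectrum (𝓞 K8)} (h : (HC.f : 𝓞 K8) ∈ P.asIdeal) :
    (2 : 𝓞 K8) ∈ P.asIdeal := by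
  by_contra h2
  exact HC.hd.bad P h (good_odd P h2)

/-- an odd element is prime to `f` -/
theorem coprime_f {c : 𝓞 K8} (hc : ¬ lam ∣ c) : IsCoprime c (HC.f : 𝓞 K8) := by
  by_contra hcon
  rw [← Ideal.isCoprime_span_singleton_iff, Ideal.isCoprime_iff_sup_eq] at hcon
  obtain ⟨M, hM, hle⟩ := Ideal.exists_le_maximal _ hcon
  have hf0 : (HC.f : 𝓞 K8) ≠ 0 := HC.hd.ne
  have hfM : (HC.f : 𝓞 K8) ∈ M := hle (Ideal.mem_sup_right (Ideal.mem_span_singleton_self _))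
  have hcM : c ∈ M := hle (Ideal.mem_sup_left (Ideal.mem_span_singleton_self _))
  have hbot : M ≠ ⊥ := by
    rintro rfl
    exact hf0 hfM
  have h2 := two_mem_of_f (P := ⟨M, hM.isPrime, hbot⟩) hfM
  have h2' : (2 : 𝓞 K8) ∈ M := h2
  rw [two_eq, neg_mem_iff] at h2'
  have hl : lam ∈ M := hM.isPrime.mem_of_pow_mem _ h2'
  obtain ⟨x, y, hxy⟩ := (lam_coprime hc)
  apply hM.ne_top
  rw [Ideal.eq_top_iff_one, ← hxy]
  exact M.add_mem (M.mul_mem_left _ hl) (M.mul_mem_left _ hcM)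

end

end Pool.Agent.Lib.MP_1a91b9_ntW.L
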