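import Pool.Agent.Lib.MP_1a91b9_ntW.A.Avg8
import Pool.Agent.Lib.MP_1a91b9_ntQ.A.SerG
import Pool.Agent.Lib.MP_1a91b9_ntW.L.Hc8

/-!
# Phase 6, `ℚ(√-2)`: the L-series of a curve with the Euler factors of a character

`ser8_gen`: trivial Euler factor at `lam`. `ser8_good`: good reduction at `lam`, the character
`(c / DD S)`, `AS S = 1`, of all the elements prime to `DD S`.
-/

set_option autoImplicit false

namespace Pool.Agent.Lib.MP_1a91b9_ntW

open NumberField IsDedekindDomain Polynomial WeierstrassCurve Finset Pool.Agent.Lib.MP_1a91b9_nt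
  Pool.Agent.Lib.MP_1a91b9_nuT
open Pool.Agent.Lib.MP_1a91b9_nuT.S4 (Lf)
open Pool.Agent.Lib.MP_1a91b9_ntQ (em em_add em_mul em_pow em_sub em_neg em_zero em_one em_ne em_prod
  em_ofNat em_intCast ChrP rst rst_pos rst_neg Ser_main)

noncomputable section

/-! ### Trivial Euler factor at `lam` -/

theorem lam_mem_of_not {v : HeightOneSpectrum (𝓞 K8)}
    (h : ¬ IsCoprime v.asIdeal (Ideal.span {(4 : 𝓞 K8)})) : lam ∈ v.asIdeal := by
  by_contra h0
  apply h
  rw [Ideal.isCoprime_iff_sup_eq]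
  have hm : v.asIdeal.IsMaximal := v.isMaximal
  by_contra h1
  have h2 := hm.eq_of_le h1 le_sup_left
  have h4 : (4 : 𝓞 K8) ∈ v.asIdeal := by
    rw [h2]
    exact Ideal.mem_sup_right (Ideal.mem_span_singleton_self _)
  rw [← lam_pow4] at h4
  exact h0 (v.isPrime.mem_of_pow_mem _ h4)

/-- **The L-series of a curve with trivial Euler factor at `lam`.** -/
theorem ser8_gen {W : WeierstrassCurve K8} {ν : 𝓞 K8} {X : 𝓞 K8 → ℂ} (hX : Chr Pr 4 ν X)
    (hlam : ∀ v : HeightOneSpectrum (𝓞 K8), lam ∈ v.asIdeal → locPoly W v = 1)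
    (hq : ∀ (q : Pg) (v : HeightOneSpectrum (𝓞 K8)), v.asIdeal = Ideal.span {q.1} → ∀ x : ℂ,
      aeval x (locPoly W v) = (1 - (starRingEnd ℂ) (em q.1) * X q.1 * x) *
        (1 - (starRingEnd ℂ) ((starRingEnd ℂ) (em q.1) * X q.1) * x)) :
    ∃ g : ℂ → ℂ, Differentiable ℂ g ∧ (∀ s : ℂ, 3 / 2 < s.re → g s = W.LSeries s) ∧
      g 1 = LG Pr X 1 * (starRingEnd ℂ) (LG Pr X 1) := by
  refine Ser_main (W := W) (p := pG Pr X) hX.pG_one hX.pG_mul hX.pG_le ?_ hX.LG_diff hX.LG_eq
  intro v x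
  rcases Gen_place (P := Pr) v with h | ⟨q, hqv⟩
  · rw [pG_neg h, hlam v (lam_mem_of_not h)]
    simp
  · have e : pG Pr X v.asIdeal = (starRingEnd ℂ) (em q.1) * X q.1 := by
      rw [← hqv]
      exact pG_plf X q
    rw [e]
    exact hq q v (by rw [← hqv]; rfl) x

/-! ### Good reduction at `lam` -/

/-- the elements of character one -/
def PU (S : Finset Pg) (c : 𝓞 K8) : Prop := ∏ q ∈ S, cq q c = 1

theorem PU_cop {S : Finset Pg} {c : 𝓞 K8} (h : PU S c) : IsCoprime c (DD S) := by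
  by_contra hc
  obtain ⟨q, hq, hd⟩ := exists_dvd_of_not_cop hc
  rw [PU, prod_eq_zero hq (cq_of_dvd hd)] at h
  exact zero_ne_one h

theorem prod_cq_or {S : Finset Pg} {c : 𝓞 K8} (h : IsCoprime c (DD S)) :
    ∏ q ∈ S, cq q c = 1 ∨ ∏ q ∈ S, cq q c = -1 := by
  have h2 : (∏ q ∈ S, cq q c) ^ 2 = 1 := by
    rw [← prod_pow]
    exact prod_eq_one fun q hq => cq_sq (not_dvd_of_cop h hq)
  have h3 : (∏ q ∈ S, cq q c - 1) * (∏ q ∈ S, cq q c + 1) = 0 := by linear_combination h2
  rcases mul_eq_zero.1 h3 with h4 | h4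
  · exact Or.inl (sub_eq_zero.1 h4)
  · exact Or.inr (eq_neg_of_add_eq_zero_left h4)

theorem prod_cq_neg (S : Finset Pg) (c : 𝓞 K8) :
    ∏ q ∈ S, cq q (-c) = sn (AS S) * ∏ q ∈ S, cq q c := by
  rw [prod_congr rfl fun q _ => cq_neg q c, prod_mul_distrib, AS, sn_sum]

theorem prod_cq_neg1 {S : Finset Pg} (hS : AS S = 1) (c : 𝓞 K8) :
    ∏ q ∈ S, cq q (-c) = -∏ q ∈ S, cq q c := by
  rw [prod_cq_neg, hS, sn_one, neg_one_mul]

theorem isNorU {S : Finset Pg} (hS : AS S = 1) : IsNor (PU S) (DD S) where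
  ne := DD_ne S
  one := prod_eq_one fun q _ => cq_one q
  mul a b ha hb := by
    have ha' : ∏ q ∈ S, cq q a = 1 := ha
    have hb' : ∏ q ∈ S, cq q b = 1 := hb
    rw [PU, prod_congr rfl fun q _ => cq_mul q a b, prod_mul_distrib, ha', hb', mul_one]
  cop a ha := PU_cop ha
  congr a b h hb := by
    have hb' : ∏ q ∈ S, cq q b = 1 := hb
    rw [PU, ← hb']
    refine prod_congr rfl fun q hq => cq_congr q ?_
    exact (dvd_prod_of_mem (fun q : Pg => q.1) hq).trans h
  inj u a ha hua := by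
    have ha' : ∏ q ∈ S, cq q a = 1 := ha
    rcases isUnit_iff.1 u.isUnit with h | h
    · exact Units.ext h
    · exfalso
      have h1 : ∏ q ∈ S, cq q ((u : 𝓞 K8) * a) = 1 := hua
      rw [h, neg_one_mul, prod_cq_neg1 hS, ha'] at h1
      norm_num at h1
  surj a ha := by
    rcases prod_cq_or ha with h | h
    · refine ⟨1, ?_⟩
      rw [Units.val_one, one_mul]
      exact h
    · refine ⟨-1, ?_⟩
      rw [Units.val_neg, Units.val_one, neg_one_mul]
      change ∏ q ∈ S, cq q (-a) = 1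
      rw [prod_cq_neg1 hS, h, neg_neg]

/-- the trivial function -/
def oneX (_ : 𝓞 K8) : ℂ := 1

theorem chrU {S : Finset Pg} : Chr (PU S) (DD S) (DD S) oneX where
  ne := DD_ne S
  dvd := dvd_rfl
  one := rfl
  mul _ _ _ _ := (mul_one (1 : ℂ)).symm
  le _ _ := norm_one.le
  zero _ ha h := absurd (PU_cop ha) h
  per _ _ _ _ := rfl

theorem conj_of_or {z : ℂ} (h : z = 1 ∨ z = -1) : (starRingEnd ℂ) z = z := by
  rcases h with h | h
  · rw [h, map_one]
  · rw [h, map_neg, map_one]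

theorem span_neg (c : 𝓞 K8) : Ideal.span {-c} = Ideal.span {c} := by
  rw [Ideal.span_singleton_eq_span_singleton]
  exact (Associated.refl c).neg_left

/-- the generators of character one -/
theorem em_psU {S : Finset Pg} (hS : AS S = 1) {c : 𝓞 K8} (hc : IsCoprime c (DD S)) :
    em (psK (PU S) (Ideal.span {c})) = (∏ q ∈ S, cq q c) * em c := by
  have := isNorU hS
  rcases prod_cq_or hc with h | h
  · rw [psK_span (f := DD S) c h, h, one_mul]
  · have h1 : PU S (-c) := by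
      rw [PU, prod_cq_neg1 hS, h, neg_neg]
    have e1 : Ideal.span {c} = Ideal.span {-c} := (span_neg c).symm
    have e2 : psK (PU S) (Ideal.span {-c}) = -c := psK_span (f := DD S) (-c) h1
    have e3 : psK (PU S) (Ideal.span {c}) = -c := (congrArg (psK (PU S)) e1).trans e2
    rw [e3, em_neg, h, neg_one_mul]

theorem pGU {S : Finset Pg} (hS : AS S = 1) {c : 𝓞 K8} (hc : IsCoprime c (DD S)) :
    pG (PU S) oneX (Ideal.span {c}) = (∏ q ∈ S, cq q c) * (starRingEnd ℂ) (em c) := by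
  rw [pG, em_psU hS hc, map_mul, conj_of_or (prod_cq_or hc), oneX, mul_one]

theorem pGU_not {S : Finset Pg} (hS : AS S = 1) {c : 𝓞 K8} (hc : ¬ IsCoprime c (DD S))
    (X : 𝓞 K8 → ℂ) : pG (PU S) X (Ideal.span {c}) = 0 := by
  have := isNorU hS
  refine pG_neg (f := DD S) fun h => hc ?_
  rwa [Ideal.isCoprime_span_singleton_iff] at h

theorem em_lam_sq : em lam ^ 2 = -2 := by
  rw [← em_pow, lam_sq, em_neg, em_ofNat]

theorem em_lam_conj : (starRingEnd ℂ) (em lam) = -em lam := by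
  have h1 := em_lam_sq
  have h2 : ((starRingEnd ℂ) (em lam)) ^ 2 = em lam ^ 2 := by
    rw [← map_pow, h1, map_neg, map_ofNat]
  rcases sq_eq_sq_iff_eq_or_eq_neg.1 h2 with h3 | h3
  · exfalso
    obtain ⟨r, hr⟩ := Complex.conj_eq_iff_real.1 h3
    rw [hr] at h1
    have h4 : (r : ℝ) ^ 2 = -2 := by exact_mod_cast h1
    nlinarith [sq_nonneg r]
  · exact h3

/-- a place above `lam` -/
theorem eq_span_lam {v : HeightOneSpectrum (𝓞 K8)} (h : lam ∈ v.asIdeal) :
    v.asIdeal = Ideal.span {lam} := by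
  have hm : (Ideal.span {lam} : Ideal (𝓞 K8)).IsMaximal :=
    Ideal.IsPrime.isMaximal ((Ideal.span_singleton_prime lam_ne_zero).2 lam_prime) (by
      rw [Ne, Ideal.span_singleton_eq_bot]
      exact lam_ne_zero)
  refine (hm.eq_of_le v.isPrime.ne_top ?_).symm
  rw [Ideal.span_singleton_le_iff_mem]
  exact h

/-- **The L-series of a curve with good reduction at `lam`.** -/
theorem ser8_good {W : WeierstrassCurve K8} {S : Finset Pg} (hS : AS S = 1)
    (hlam : ∀ v : HeightOneSpectrum (𝓞 K8), lam ∈ v.asIdeal → ∀ x : ℂ,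
      aeval x (locPoly W v) = 1 + 2 * x ^ 2)
    (hq : ∀ (q : Pg) (v : HeightOneSpectrum (𝓞 K8)), v.asIdeal = Ideal.span {q.1} → ∀ x : ℂ,
      aeval x (locPoly W v) = (1 - (starRingEnd ℂ) (em q.1) * (∏ p ∈ S, cq p q.1) * x) *
        (1 - (starRingEnd ℂ) ((starRingEnd ℂ) (em q.1) * ∏ p ∈ S, cq p q.1) * x)) :
    ∃ g : ℂ → ℂ, Differentiable ℂ g ∧ (∀ s : ℂ, 3 / 2 < s.re → g s = W.LSeries s) ∧
      g 1 = LG (PU S) oneX 1 * (starRingEnd ℂ) (LG (PU S) oneX 1) := by
  have := isNorU hS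
  have hX := chrU (S := S)
  refine Ser_main (W := W) (p := pG (PU S) oneX) hX.pG_one hX.pG_mul hX.pG_le ?_ hX.LG_diff hX.LG_eq
  intro v x
  rcases Gen_place (P := Pr) v with h | ⟨q, hqv⟩
  · have hl := lam_mem_of_not h
    have hcop : IsCoprime lam (DD S) := by
      rw [DD]
      exact IsCoprime.prod_right fun q _ => lam_coprime (Pg_not_lam q)
    have e1 : pG (PU S) oneX v.asIdeal = (∏ q ∈ S, cq q lam) * (starRingEnd ℂ) (em lam) :=
      (congrArg (pG (PU S) oneX) (eq_span_lam hl)).trans (pGU hS hcop)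
    rw [hlam v hl, e1, map_mul, conj_of_or (prod_cq_or hcop), Complex.conj_conj, em_lam_conj]
    have h2 := em_lam_sq
    rcases prod_cq_or hcop with h3 | h3
    · rw [h3]
      linear_combination x ^ 2 * h2
    · rw [h3]
      linear_combination x ^ 2 * h2
  · have hv : v.asIdeal = Ideal.span {q.1} := by rw [← hqv]; rfl
    rw [hq q v hv x]
    by_cases hc : IsCoprime q.1 (DD S)
    · have e1 : pG (PU S) oneX v.asIdeal = (∏ p ∈ S, cq p q.1) * (starRingEnd ℂ) (em q.1) :=
        (congrArg (pG (PU S) oneX) hv).trans (pGU hS hc)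
      rw [e1, mul_comm (∏ p ∈ S, cq p q.1)]
    · have e1 : pG (PU S) oneX v.asIdeal = 0 :=
        (congrArg (pG (PU S) oneX) hv).trans (pGU_not hS hc oneX)
      obtain ⟨p, hp, hd⟩ := exists_dvd_of_not_cop hc
      rw [e1, prod_eq_zero hp (cq_of_dvd hd)]
      simp

/-- the character of the elements `X8 1 0 S` -/
theorem X8_good {S : Finset Pg} (hS : AS S = 1) (c : 𝓞 K8) : X8 1 0 S c = ∏ q ∈ S, cq q c := by
  have e : (1 : ZMod 2) + 1 = 0 := rfl
  rw [X8, hS, e, th8, zero_mul, zero_mul, add_zero, sn_zero, one_mul]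

/-- **The Euler factor at `lam`.** -/
theorem LG_good {S : Finset Pg} (hS : AS S = 1) : ∃ e : ℂ, (e = 1 ∨ e = -1) ∧
    LG Pr (X8 1 0 S) 1 = LG (PU S) oneX 1 * (1 - e / em lam) := by
  have := isNorU hS
  have hX := chrU (S := S)
  have hcop : IsCoprime lam (DD S) := by
    rw [DD]
    exact IsCoprime.prod_right fun q _ => lam_coprime (Pg_not_lam q)
  obtain ⟨e, l, hl, hPU, he, hle, hlor⟩ : ∃ (e : ℂ) (l : 𝓞 K8), Prime l ∧ PU S l ∧
      (e = 1 ∨ e = -1) ∧ 1 / em l = e / em lam ∧ (l = lam ∨ l = -lam) := by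
    rcases prod_cq_or hcop with h | h
    · exact ⟨1, lam, lam_prime, h, Or.inl rfl, rfl, Or.inl rfl⟩
    · refine ⟨-1, -lam, lam_prime.neg, ?_, Or.inr rfl, ?_, Or.inr rfl⟩
      · rw [PU, prod_cq_neg1 hS, h, neg_neg]
      · rw [em_neg, div_neg, neg_div]
  refine ⟨e, he, ?_⟩
  obtain ⟨μ, hμ⟩ : ∃ μ, μ = DD S * ∏ q ∈ ({⟨l, hl, hPU⟩} : Finset (Pf (PU S))), q.1 := ⟨_, rfl⟩
  have hE := hX.euler hμ
  have hμ' : μ = DD S * l := by rw [hμ, prod_singleton]
  rw [prod_singleton] at hE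
  have e1 : (1 : ℂ) - oneX l / em l = 1 - e / em lam := by rw [oneX, hle]
  change LG (PU S) oneX 1 * (1 - oneX l / em l) = _ at hE
  rw [e1] at hE
  rw [hE]
  have hμ0 : μ ≠ 0 := by
    rw [hμ']
    exact mul_ne_zero (DD_ne S) hl.ne_zero
  have hr := hX.rst hμ0 ⟨l, hμ'⟩
  have hX8 := X8_chr 1 0 S
  have key : ∀ c : 𝓞 K8, pG Pr (X8 1 0 S) (Ideal.span {c}) =
      pG (PU S) (rst μ oneX) (Ideal.span {c}) := by
    intro c
    have en : Ideal.span {c} = Ideal.span {-c} := (span_neg c).symm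
    have hnot : lam ∣ c → pG Pr (X8 1 0 S) (Ideal.span {c}) = 0 := by
      intro h2
      refine pG_neg (f := 4) ?_
      rw [Ideal.isCoprime_span_singleton_iff]
      intro h4
      have h5 : (lam : 𝓞 K8) ∣ 4 := by
        rw [← lam_pow4]
        exact dvd_pow_self _ (by norm_num)
      exact lam_not_unit (h4.isUnit_of_dvd' h2 h5)
    have hpr : ∀ a : 𝓞 K8, Pr a → psK Pr (Ideal.span {a}) = a := fun a ha =>
      psK_span (f := 4) a ha
    have hpn : Pr (-c) → psK Pr (Ideal.span {c}) = -c := fun ha =>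
      (congrArg (psK Pr) en).trans (hpr (-c) ha)
    by_cases h1 : IsCoprime c (DD S)
    · obtain ⟨h5, h6⟩ : PU S (psK (PU S) (Ideal.span {c})) ∧
          Ideal.span {psK (PU S) (Ideal.span {c})} = Ideal.span {c} :=
        psK_of_coprime (P := PU S) (f := DD S) (Ideal.span {c}) (by
          rwa [Ideal.isCoprime_span_singleton_iff])
      obtain ⟨b, hb⟩ : ∃ b : 𝓞 K8, b = psK (PU S) (Ideal.span {c}) := ⟨_, rfl⟩
      rw [← hb, Ideal.span_singleton_eq_span_singleton] at h6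
      rw [← hb] at h5
      by_cases h2 : lam ∣ c
      · -- divisible by `lam`
        rw [hnot h2, pG, ← hb, rst_neg, mul_zero]
        intro h4
        have h7 : lam ∣ b := h2.trans h6.symm.dvd
        have h8 : lam ∣ μ := by
          rw [hμ']
          rcases hlor with h | h
          · rw [h]
            exact dvd_mul_left _ _
          · rw [h, mul_neg, dvd_neg]
            exact dvd_mul_left _ _
        exact lam_not_unit (h4.isUnit_of_dvd' h7 h8)
      · have h3 : pG (PU S) (rst μ oneX) (Ideal.span {c}) = pG (PU S) oneX (Ideal.span {c}) := by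
          rw [pG, pG, rst_pos]
          rw [← hb, hμ']
          refine IsCoprime.mul_right (PU_cop h5) ?_
          have h7 : ¬ lam ∣ b := fun h8 => h2 (h8.trans h6.dvd)
          have h8 := (lam_coprime h7).symm
          rcases hlor with h | h
          · rw [h]
            exact h8
          · rw [h]
            exact h8.neg_right
        rw [h3, pGU hS h1, pG, X8_good hS]
        rcases Pr_or_neg h2 with h4 | h4
        · rw [hpr c h4, mul_comm]
        · rw [hpn h4, prod_cq_neg1 hS, em_neg, map_neg]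
          ring
    · rw [pGU_not hS h1]
      by_cases h2 : lam ∣ c
      · rw [hnot h2]
      · obtain ⟨q, hq, hd⟩ := exists_dvd_of_not_cop h1
        rw [pG, X8_good hS]
        rcases Pr_or_neg h2 with h4 | h4
        · rw [hpr c h4, prod_eq_zero hq (cq_of_dvd hd), mul_zero]
        · rw [hpn h4, prod_eq_zero hq (cq_of_dvd ((dvd_neg).2 hd)), mul_zero]
  refine congrFun ?_ 1
  refine S4.entire_eq hX8.LG_diff hr.LG_diff fun s hs => ?_
  rw [hX8.LG_eq s hs, hr.LG_eq s hs]
  congr 1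
  funext I
  obtain ⟨c, hc⟩ := (pidK8.principal I).principal
  have hI : I = Ideal.span {c} := hc
  exact (congrArg (pG Pr (X8 1 0 S)) hI).trans ((key c).trans
    (congrArg (pG (PU S) (rst μ oneX)) hI.symm))

theorem norm_good {e : ℂ} (he : e = 1 ∨ e = -1) :
    (1 - e / em lam) * (starRingEnd ℂ) (1 - e / em lam) = 3 / 2 := by
  have h := em_lam_sq
  have h0 : em lam ≠ 0 := em_ne lam_ne_zero
  rw [map_sub, map_one, map_div₀, conj_of_or he, em_lam_conj]
  have he2 : e ^ 2 = 1 := by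
    rcases he with h | h <;> rw [h] <;> norm_num
  have e1 : (1 - e / em lam) * (1 - e / -em lam) = 1 - e ^ 2 / em lam ^ 2 := by
    field_simp
    ring
  rw [e1, he2, h]
  norm_num

end

end Pool.Agent.Lib.MP_1a91b9_ntW
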