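import Pool.Agent.Lib.MP_1a91b9_ntW.L.FrS
import Pool.Agent.Lib.MP_1a91b9_ntW.L.Hc8

/-!
# Phase 6, `ℚ(√-2)`: the Hecke character of `W_{-1}` on the odd elements

The points of abscissa `12 lam - 24` are killed by `1 + lam`. For `c` normalised,
`ps (c) = (-lam / c) c`.
-/

set_option autoImplicit false

namespace Pool.Agent.Lib.MP_1a91b9_ntW.L

open NumberField IsDedekindDomain Polynomial WeierstrassCurve Pool.Agent.Lib.MP_1a91b9_nuT
  Pool.Agent.Lib.MP_1a91b9_nuX Pool.Agent.Lib.MP_1a91b9_nuX.DB Pool.Agent.Lib.MP_1a91b9_ntW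

noncomputable section

/-! ### The point of order three -/

section pt

variable {F : Type*} [Field F] [Algebra K8 F]

theorem tF8_sq : (tF F : F) ^ 2 = -2 := by
  have h : (tF F : F) = algebraMap K8 F ((lam : 𝓞 K8) : K8) := rfl
  have h2 : ((lam : 𝓞 K8) : K8) ^ 2 = -2 := by
    change (algebraMap (𝓞 K8) K8 lam) ^ 2 = -2
    rw [← map_pow, lam_sq, map_neg, map_ofNat]
  rw [h, ← map_pow, h2, map_neg, map_ofNat]

theorem io_lam2 : io F (lam8 ^ 2) = -2 := by
  have h : io F (lam8 ^ 2) = algebraMap K8 F (algebraMap (𝓞 K8) K8 (lam8 ^ 2)) := rfl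
  rw [h, lam8_sq, map_neg, map_ofNat, map_neg, map_ofNat]

theorem NF8 : (NF F : F[X]) = X ^ 2 + C 48 * X + C 2592 := by
  have h : (NF F : F[X]) = (X ^ 2 + C 48 * X + C 2592 : (𝓞 K8)[X]).map (io F) := rfl
  rw [h]
  simp only [Polynomial.map_add, Polynomial.map_mul, Polynomial.map_pow, map_X, map_C]
  have e1 : (io F) 48 = 48 := map_ofNat _ 48
  have e2 : (io F) 2592 = 2592 := map_ofNat _ 2592
  rw [e1, e2]

theorem DF8 : (DF F : F[X]) = C (-2) * (X + C 48) := by
  have h : (DF F : F[X]) = (C (lam8 ^ 2) * (X + C 48) : (𝓞 K8)[X]).map (io F) := rfl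
  rw [h]
  simp only [Polynomial.map_add, Polynomial.map_mul, map_X, map_C]
  have e1 : (io F) 48 = 48 := map_ofNat _ 48
  rw [io_lam2, e1]

theorem NF8_eval (x : F) : (NF F).eval x = x ^ 2 + 48 * x + 2592 := by
  rw [NF8]
  simp

theorem DF8_eval (x : F) : (DF F).eval x = -2 * (x + 48) := by
  rw [DF8]
  simp

theorem WF8_eval (x : F) : (WF F).eval x =
    (2 * x + 48) * (-2 * (x + 48)) - (x ^ 2 + 48 * x + 2592) * (-2) := by
  rw [WF, NF8, DF8]
  simp only [eval_sub, eval_mul, eval_add, eval_pow, eval_X, eval_C, derivative_add, derivative_mul,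
    derivative_X_pow, derivative_X, derivative_C]
  simp only [eval_sub, eval_mul, eval_add, eval_pow, eval_X, eval_C, eval_zero, eval_one]
  norm_num

variable [CharZero F] [DecidableEq F]

theorem ord3_eqn {y : F} (hy : y ^ 2 = 13824 - 34560 * tF F) :
    y ^ 2 = (12 * tF F - 24) ^ 3 + cA F * (12 * tF F - 24) + cB F := by
  have h1 : (cA F : F) = -4320 := by
    change ((-4320 : ℤ) : F) = -4320
    push_cast
    ring
  have h2 : (cB F : F) = -96768 := by
    change ((-96768 : ℤ) : F) = -96768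
    push_cast
    ring
  rw [hy, h1, h2]
  linear_combination (-1728 * tF F + 10368) * (tF8_sq (F := F))

/-- **The points of abscissa `12 lam - 24` are killed by `1 + lam`.** -/
theorem ord3_ta {y : F} (hy : y ^ 2 = 13824 - 34560 * tF F) :
    taH F (mkPt (12 * tF F - 24) y (ord3_eqn hy)) = -mkPt (12 * tF F - 24) y (ord3_eqn hy) := by
  have hs := tF8_sq (F := F)
  have h6 : (tF F + 2) * (2 - tF F) = 6 := by linear_combination -hs
  have hne : tF F + 2 ≠ 0 := by
    intro h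
    rw [h, zero_mul] at h6
    norm_num at h6
  have ht : tF F ≠ 0 := tF_ne
  have hD : (DF F).eval (12 * tF F - 24) ≠ 0 := by
    rw [DF8_eval]
    have e : -2 * (12 * tF F - 24 + 48) = -24 * (tF F + 2) := by ring
    rw [e]
    exact mul_ne_zero (by norm_num) hne
  rw [taH_apply, taF_of_ne _ hD, neg_mk, mk_inj]
  constructor
  · rw [div_eq_iff hD, NF8_eval, DF8_eval]
    linear_combination 432 * hs
  · rw [div_eq_iff (mul_ne_zero ht (pow_ne_zero 2 hD)), WF8_eval, DF8_eval]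
    linear_combination (2016 + 576 * tF F) * y * hs

theorem ord3_three {y : F} (hy : y ^ 2 = 13824 - 34560 * tF F) :
    3 • mkPt (12 * tF F - 24) y (ord3_eqn hy) = 0 := by
  obtain ⟨T, hT⟩ : ∃ T, T = mkPt (12 * tF F - 24) y (ord3_eqn hy) := ⟨_, rfl⟩
  have h1 : taH F T = -T := by
    rw [hT]
    exact ord3_ta hy
  have h2 := taF_quad T
  rw [← taH_apply, ← taH_apply, h1, map_neg, h1, neg_neg] at h2
  have e1 : (CD.tr : ℤ) = 0 := rfl
  have e2 : (CD.nm : ℤ) = 2 := rfl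
  rw [e1, e2, zero_smul, zero_sub] at h2
  rw [← hT]
  have h3 : (3 : ℕ) • T = T + (2 : ℤ) • T := by
    rw [← natCast_zsmul, show ((3 : ℕ) : ℤ) = 1 + 2 by norm_num, add_smul, one_smul]
  rw [h3]
  nth_rewrite 1 [h2]
  exact neg_add_cancel _

theorem ord3_sm {y : F} (hy : y ^ 2 = 13824 - 34560 * tF F) (a : 𝓞 K8) :
    sm F a (mkPt (12 * tF F - 24) y (ord3_eqn hy)) =
      ((cp a).1 - (cp a).2) • mkPt (12 * tF F - 24) y (ord3_eqn hy) := by
  rw [sm_coords a (cp a).1 (cp a).2 (eq_cp a), ord3_ta hy, smul_neg, sub_smul]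
  exact (sub_eq_add_neg _ _).symm

theorem ord3_dvd {y : F} (hy : y ^ 2 = 13824 - 34560 * tF F) {n : ℤ}
    (h : n • mkPt (12 * tF F - 24) y (ord3_eqn hy) = 0) : (3 : ℤ) ∣ n := by
  obtain ⟨T, hT⟩ : ∃ T, T = mkPt (12 * tF F - 24) y (ord3_eqn hy) := ⟨_, rfl⟩
  have h0 : T ≠ 0 := by
    rw [hT]
    exact mk_ne_zero _ _ _
  have h3 := ord3_three hy
  rw [← hT] at h h3
  have h3' : (3 : ℤ) • T = 0 := by
    rw [← h3, ← natCast_zsmul]
    rfl
  by_contra hn
  apply h0
  have h5 : n % 3 = 1 ∨ n % 3 = 2 := by omega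
  rcases h5 with h5 | h5
  · have e : (1 : ℤ) = n - (n / 3) * 3 := by omega
    rw [← one_zsmul T, e, sub_smul, mul_smul, h, h3', smul_zero, sub_zero]
  · have e : (1 : ℤ) = (n / 3 + 1) * 3 - n := by omega
    rw [← one_zsmul T, e, sub_smul, mul_smul, h, h3', smul_zero, sub_zero]

end pt

/-! ### The normalised prime `1 + lam` -/

theorem prime_of_Nz {x : 𝓞 K8} (h : (Nz x).Prime) : Prime x := by
  rw [← irreducible_iff_prime]
  refine ⟨fun hu => ?_, fun a b hab => ?_⟩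
  · rw [isUnit_iff_Nz] at hu
    rw [hu] at h
    exact Nat.not_prime_one h
  · have h1 : Nz x = Nz a * Nz b := by rw [hab, Nz_mul]
    rcases (Nat.prime_mul_iff.1 (h1 ▸ h)) with h2 | h2
    · exact Or.inr (isUnit_iff_Nz.2 h2.2)
    · exact Or.inl (isUnit_iff_Nz.2 h2.2)

theorem cp_mk (p q : ℤ) {x : 𝓞 K8} (h : x = (p : 𝓞 K8) + q * lam) : cp x = (p, q) := by
  rw [h, cp_coords]

theorem cp_p3 : cp (1 + lam : 𝓞 K8) = (1, 1) := cp_mk 1 1 (by push_cast; ring)

/-- the prime `1 + lam` -/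
def p3 : Pg := ⟨1 + lam, by
  have h : (Nz (1 + lam : 𝓞 K8) : ℤ) = 3 := by
    rw [Nz_cp, cp_p3]
    norm_num
  have h3 : Nz (1 + lam : 𝓞 K8) = 3 := by exact_mod_cast h
  refine ⟨prime_of_Nz ?_, ?_⟩
  · rw [h3]
    norm_num
  · rw [Pr_iff, cp_p3]
    norm_num⟩

theorem p3_val : p3.1 = 1 + lam := rfl

theorem aa_p3 : aa p3.1 = 1 := by
  rw [p3_val, aa_cp, cp_p3]
  rfl

theorem p3_dvd {x : 𝓞 K8} : p3.1 ∣ x ↔ (3 : ℤ) ∣ (cp x).1 - (cp x).2 := by
  rw [p3_val]
  constructor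
  · rintro ⟨y, rfl⟩
    rw [cp_mul, cp_p3]
    exact ⟨-(cp y).2, by ring⟩
  · rintro ⟨n, hn⟩
    refine ⟨(((cp x).2 + n : ℤ) : 𝓞 K8) + ((-n : ℤ) : 𝓞 K8) * lam, ?_⟩
    have h1 := eq_cp x
    have h2 : ((cp x).1 : 𝓞 K8) = ((cp x).2 + 3 * n : ℤ) := by
      congr 1
      omega
    rw [h2] at h1
    push_cast at h1 ⊢
    linear_combination h1 + (n : 𝓞 K8) * lam_sq

/-- the reduction modulo `1 + lam` -/
def t3 (x : 𝓞 K8) : ZMod 3 := (((cp x).1 - (cp x).2 : ℤ) : ZMod 3)

theorem t3_mul (x y : 𝓞 K8) : t3 (x * y) = t3 x * t3 y := by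
  unfold t3
  rw [cp_mul]
  push_cast
  have h3 : (3 : ZMod 3) = 0 := rfl
  linear_combination (-((cp x).2 : ZMod 3) * (cp y).2) * h3

theorem t3_sub (x y : 𝓞 K8) : t3 (x - y) = t3 x - t3 y := by
  unfold t3
  rw [cp_sub]
  push_cast [Prod.fst_sub, Prod.snd_sub]
  ring

theorem t3_one : t3 1 = 1 := by
  unfold t3
  rw [cp_one]
  norm_num

theorem t3_neg (x : 𝓞 K8) : t3 (-x) = -t3 x := by
  unfold t3
  rw [cp_neg]
  push_cast [Prod.fst_neg, Prod.snd_neg]
  ring

theorem t3_zero_iff {x : 𝓞 K8} : t3 x = 0 ↔ p3.1 ∣ x := by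
  unfold t3
  rw [ZMod.intCast_zmod_eq_zero_iff_dvd, p3_dvd]
  rfl

/-- the symbol modulo `1 + lam` -/
theorem cc_p3 {x : 𝓞 K8} (hx : ¬ p3.1 ∣ x) : cc p3 x = if t3 x = 1 then 0 else 1 := by
  classical
  rw [cc_def]
  have h0 : t3 x ≠ 0 := fun h => hx (t3_zero_iff.1 h)
  by_cases h1 : t3 x = 1
  · rw [if_pos h1, if_pos]
    refine ⟨1, ?_⟩
    rw [← t3_zero_iff, t3_sub, one_pow, t3_one, h1, sub_self]
  · rw [if_neg h1, if_neg]
    rintro ⟨y, hy⟩
    rw [← t3_zero_iff, t3_sub, sq, t3_mul] at hy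
    have key : ∀ u v : ZMod 3, v ≠ 0 → v ≠ 1 → u * u - v ≠ 0 := by decide
    exact key _ _ h0 h1 hy

/-! ### The sign at the primes -/

/-- the sign `(-lam / x)` -/
def sg (x : 𝓞 K8) : 𝓞 K8 := if aa x + ll x = 0 then 1 else -1

theorem sg_mul {x y : 𝓞 K8} (hx : Pr x) (hy : Pr y) : sg (x * y) = sg x * sg y := by
  unfold sg
  rw [aa_mul hx hy, ll_mul hx hy]
  have key : ∀ a b c d : ZMod 2, (a + b) + (c + d) = 0 ↔ ((a + c = 0 ∧ b + d = 0) ∨
      (a + c ≠ 0 ∧ b + d ≠ 0)) := by decide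
  have h := key (aa x) (aa y) (ll x) (ll y)
  by_cases h1 : aa x + ll x = 0
  · by_cases h2 : aa y + ll y = 0
    · rw [if_pos h1, if_pos h2, if_pos (h.2 (Or.inl ⟨h1, h2⟩)), one_mul]
    · rw [if_pos h1, if_neg h2, if_neg, one_mul]
      rw [h]
      rintro (h3 | h3)
      · exact h2 h3.2
      · exact h3.1 h1
  · by_cases h2 : aa y + ll y = 0
    · rw [if_neg h1, if_pos h2, if_neg, mul_one]
      rw [h]
      rintro (h3 | h3)
      · exact h1 h3.1
      · exact h3.2 h2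
    · rw [if_neg h1, if_neg h2, if_pos (h.2 (Or.inr ⟨h1, h2⟩))]
      ring

theorem sg_congr {x y : 𝓞 K8} (h : 4 * lam ∣ x - y) : sg x = sg y := by
  unfold sg
  rw [aa_congr ((Dvd.intro lam rfl).trans h), ll_congr h]

theorem sg_one : sg 1 = 1 := by
  unfold sg
  rw [aa_one, ll_one, if_pos (add_zero _)]

/-- the place of a normalised prime -/
def plq (q : Pg) : HeightOneSpectrum (𝓞 K8) where
  asIdeal := Ideal.span {q.1}
  isPrime := (Ideal.span_singleton_prime q.2.1.ne_zero).2 q.2.1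
  ne_bot := by
    rw [Ne, Ideal.span_singleton_eq_bot]
    exact q.2.1.ne_zero

theorem mem_plq {q : Pg} {x : 𝓞 K8} : x ∈ (plq q).asIdeal ↔ q.1 ∣ x := Ideal.mem_span_singleton

theorem two_notMem (q : Pg) : (2 : 𝓞 K8) ∉ (plq q).asIdeal := by
  rw [mem_plq, two_eq, dvd_neg]
  exact fun h => not_dvd_lam q (q.2.1.dvd_of_dvd_pow h)

theorem f_notMem (q : Pg) : (HC.f : 𝓞 K8) ∉ (plq q).asIdeal := fun h => two_notMem q (two_mem_of_f h)

/-- the radicand of the ordinate -/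
def bt8 : 𝓞 K8 := 13824 - 34560 * lam

theorem bt8_eq : bt8 = (lam * p3.1) * (lam ^ 8 * p3.1 * (1 - lam) ^ 3) ^ 2 := by
  rw [bt8, p3_val]
  have h := lam_sq
  have h3 : (1 + lam) * (1 - lam) = (3 : 𝓞 K8) := by linear_combination -h
  have e : (lam * (1 + lam)) * (lam ^ 8 * (1 + lam) * (1 - lam) ^ 3) ^ 2 =
      (lam ^ 2) ^ 8 * lam * ((1 + lam) * (1 - lam)) ^ 3 * (1 - lam) ^ 3 := by ring
  rw [e, h3, h]
  linear_combination (6912 * (lam ^ 2 - 3 * lam + 1)) * h

theorem three_eq : (1 + lam) * (1 - lam) = (3 : 𝓞 K8) := by linear_combination -lam_sq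

theorem sg_prime (q : Pg) (h3 : ¬ q.1 ∣ 3) : ps (Ideal.span {q.1}) = sg q.1 * q.1 := by
  classical
  have hq1 : ¬ q.1 ∣ 1 + lam := fun h => h3 (by rw [← three_eq]; exact h.mul_right _)
  have hq2 : ¬ q.1 ∣ 1 - lam := fun h => h3 (by rw [← three_eq]; exact h.mul_left _)
  have hql : ¬ q.1 ∣ lam := not_dvd_lam q
  have hnb : ¬ q.1 ∣ bt8 := by
    rw [bt8_eq, p3_val]
    intro h
    rcases q.2.1.dvd_or_dvd h with h | h
    · rcases q.2.1.dvd_or_dvd h with h | h
      · exact hql h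
      · exact hq1 h
    · have h := q.2.1.dvd_of_dvd_pow h
      rcases q.2.1.dvd_or_dvd h with h | h
      · rcases q.2.1.dvd_or_dvd h with h | h
        · exact hql (q.2.1.dvd_of_dvd_pow h)
        · exact hq1 h
      · exact hq2 (q.2.1.dvd_of_dvd_pow h)
  obtain ⟨V, hV⟩ := GL.exists_abv (Ω := AlgebraicClosure K8) (plq q)
  obtain ⟨σ, hσ⟩ := GL.exists_fr hV
  obtain ⟨y, hy⟩ : ∃ y : AlgebraicClosure K8,
      y ^ 2 = algebraMap K8 (AlgebraicClosure K8) ((bt8 : 𝓞 K8) : K8) :=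
    IsAlgClosed.exists_pow_nat_eq _ (by norm_num)
  have htF : (tF (AlgebraicClosure K8) : AlgebraicClosure K8) =
      algebraMap K8 (AlgebraicClosure K8) ((lam : 𝓞 K8) : K8) := rfl
  have hy' : y ^ 2 = 13824 - 34560 * tF (AlgebraicClosure K8) := by
    rw [hy, htF]
    have e : ((bt8 : 𝓞 K8) : K8) = 13824 - 34560 * ((lam : 𝓞 K8) : K8) := by
      change algebraMap (𝓞 K8) K8 (13824 - 34560 * lam) = _
      rw [map_sub, map_mul, map_ofNat, map_ofNat]
    rw [e, map_sub, map_mul, map_ofNat, map_ofNat]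
  obtain ⟨T, hT⟩ : ∃ T, T = mkPt (12 * tF (AlgebraicClosure K8) - 24) y (ord3_eqn hy') := ⟨_, rfl⟩
  have hT3 : 3 • T = 0 := by
    rw [hT]
    exact ord3_three hy'
  have hv3 : V.valuation ((3 : ℕ) : AlgebraicClosure K8) = 1 := by
    have h : (3 : 𝓞 K8) ∉ (plq q).asIdeal := by rwa [mem_plq]
    have h4 := notMem_eq hV h
    have e : algebraMap K8 (AlgebraicClosure K8) (((3 : 𝓞 K8) : 𝓞 K8) : K8) = 3 := by
      change algebraMap K8 _ (algebraMap (𝓞 K8) K8 3) = 3
      rw [map_ofNat, map_ofNat]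
    rw [e] at h4
    rw [Nat.cast_ofNat]
    exact h4
  have hfr := HC.hd.frob (plq q) (f_notMem q) V hV σ hσ 3 T hv3 hT3
  have hsm : sm (AlgebraicClosure K8) (ps (plq q).asIdeal) T =
      ((cp (ps (plq q).asIdeal)).1 - (cp (ps (plq q).asIdeal)).2) • T := by
    rw [hT]
    exact ord3_sm hy' _
  obtain ⟨ψ, hψ⟩ : ∃ ψ : 𝓞 K8, ψ = ps (plq q).asIdeal := ⟨_, rfl⟩
  have hfr' : ga σ T = ((cp ψ).1 - (cp ψ).2) • T := by
    rw [hψ]
    exact hfr.trans hsm
  -- the value modulo three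
  have hx : σ (12 * tF (AlgebraicClosure K8) - 24) = 12 * tF (AlgebraicClosure K8) - 24 := by
    rw [htF, map_sub, map_mul, σ.commutes, map_ofNat, map_ofNat]
  have hcc : cc q bt8 = if ∃ s : 𝓞 K8, s ^ 2 - bt8 ∈ (plq q).asIdeal then 0 else 1 := by
    rw [cc_def]
    simp only [mem_plq]
  have hmod : t3 ψ = if cc q bt8 = 0 then 1 else -1 := by
    have hnb' : bt8 ∉ (plq q).asIdeal := by rwa [mem_plq]
    rcases fr_sqrt (two_notMem q) hV hσ hnb' hy with ⟨h5, h6⟩ | ⟨h5, h6⟩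
    · have hga : ga σ T = T := by
        rw [hT]
        refine pt_ext ?_ (mk_ne_zero _ _ _) ?_ ?_
        · intro h0
          have h7 := congrArg yc h0
          have h8 := congrArg xc h0
          apply mk_ne_zero (12 * tF (AlgebraicClosure K8) - 24) y (ord3_eqn hy')
          exact (pm_inj _) (h0.trans (map_zero _).symm)
        · rw [xc_ga, xc_mk, hx]
        · rw [yc_ga, yc_mk, h6]
      rw [hga] at hfr'
      have h9 : (((cp ψ).1 - (cp ψ).2) - 1) • T = 0 := by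
        rw [sub_smul, one_smul, ← hfr', sub_self]
      rw [hT] at h9
      have h10 := ord3_dvd hy' h9
      rw [hcc, if_pos h5, if_pos rfl]
      unfold t3
      rw [← sub_eq_zero, ← Int.cast_one, ← Int.cast_sub, ZMod.intCast_zmod_eq_zero_iff_dvd]
      exact h10
    · have hga : ga σ T = -T := by
        rw [hT, neg_mk]
        refine pt_ext ?_ (mk_ne_zero _ _ _) ?_ ?_
        · intro h0
          apply mk_ne_zero (12 * tF (AlgebraicClosure K8) - 24) y (ord3_eqn hy')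
          exact (pm_inj _) (h0.trans (map_zero _).symm)
        · rw [xc_ga, xc_mk, hx, xc_mk]
        · rw [yc_ga, yc_mk, h6, yc_mk]
      rw [hga] at hfr'
      have h9 : (((cp ψ).1 - (cp ψ).2) + 1) • T = 0 := by
        rw [add_smul, one_smul, ← hfr', neg_add_cancel]
      rw [hT] at h9
      have h10 := ord3_dvd hy' h9
      rw [hcc, if_neg h5, if_neg one_ne_zero]
      unfold t3
      rw [← sub_eq_zero, sub_neg_eq_add, ← Int.cast_one, ← Int.cast_add,
        ZMod.intCast_zmod_eq_zero_iff_dvd]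
      exact h10
  -- the symbol
  have hqp : q ≠ p3 := by
    rintro rfl
    exact hq1 dvd_rfl
  have hsq : ¬ q.1 ∣ (lam ^ 8 * p3.1 * (1 - lam) ^ 3) ^ 2 := by
    intro h
    apply hnb
    rw [bt8_eq]
    exact h.mul_left _
  have hlp : ¬ q.1 ∣ lam * p3.1 := by
    intro h
    apply hnb
    rw [bt8_eq]
    exact h.mul_right _
  have hc1 : cc q bt8 = ll q.1 + (cc p3 q.1 + aa q.1) := by
    rw [bt8_eq, cc_mul q hlp hsq, cc_sq, add_zero, cc_mul q hql (show ¬ q.1 ∣ p3.1 from hq1), cc_lam,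
      cc_recip q p3 hqp, aa_p3, mul_one]
  have hc2 : cc p3 q.1 = if t3 q.1 = 1 then 0 else 1 := by
    refine cc_p3 fun h => ?_
    exact hqp.symm (Pg_eq h)
  have ht0 : t3 q.1 ≠ 0 := fun h => hqp.symm (Pg_eq (t3_zero_iff.1 h))
  -- the generator
  have hspan : Ideal.span {ψ} = Ideal.span {q.1} := by
    rw [hψ]
    exact HC.hd.span _ (by
      rw [show (plq q).asIdeal = Ideal.span {q.1} from rfl, Ideal.isCoprime_span_singleton_iff]
      exact coprime_f q.2.2.odd)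
  have hψ2 : ψ = q.1 ∨ ψ = -q.1 := by
    rw [Ideal.span_singleton_eq_span_singleton] at hspan
    obtain ⟨u, hu⟩ := hspan.symm
    rcases isUnit_iff.1 u.isUnit with h1 | h1
    · left
      rw [← hu, h1, mul_one]
    · right
      rw [← hu, h1]
      ring
  have hgoal : ps (Ideal.span {q.1}) = ψ := hψ.symm
  rw [hgoal]
  rw [hc1, hc2] at hmod
  unfold sg
  rcases hψ2 with h | h
  · rw [h] at hmod ⊢
    have key : ∀ (a l : ZMod 2) (t : ZMod 3), t ≠ 0 →
        t = (if l + ((if t = 1 then 0 else 1) + a) = 0 then 1 else -1) → a + l = 0 := by decide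
    rw [if_pos (key _ _ _ ht0 hmod), one_mul]
  · rw [h] at hmod ⊢
    rw [t3_neg] at hmod
    have key : ∀ (a l : ZMod 2) (t : ZMod 3), t ≠ 0 →
        -t = (if l + ((if t = 1 then 0 else 1) + a) = 0 then 1 else -1) → a + l ≠ 0 := by decide
    rw [if_neg (key _ _ _ ht0 hmod)]
    ring

/-! ### All the odd elements -/

theorem Pr_cancel {x y : 𝓞 K8} (hx : Pr x) (h : Pr (x * y)) : Pr y := (Pr_mul_iff hx).1 h

theorem ps_mul8 (x y : 𝓞 K8) : ps (Ideal.span {x * y}) = ps (Ideal.span {x}) * ps (Ideal.span {y}) := by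
  have h2 : (Ideal.span {x} * Ideal.span {y} : Ideal (𝓞 K8)) = Ideal.span {x * y} :=
    Ideal.span_singleton_mul_span_singleton _ _
  exact (congrArg HC.ps h2.symm).trans (HC.hd.mul (Ideal.span {x}) (Ideal.span {y}))

/-- the elements prime to `6` -/
theorem ps_three (a : 𝓞 K8) : ∀ c : 𝓞 K8, Pr c → (a = c ∨ a = -c) → IsCoprime c 3 →
    ps (Ideal.span {c}) = sg c * c := by
  induction a using UniqueFactorizationMonoid.induction_on_prime with
  | h₁ =>
    intro c hc h _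
    exfalso
    have h0 : c = 0 := by
      rcases h with h | h
      · exact h.symm
      · rw [← neg_eq_zero, ← h]
    rw [h0] at hc
    exact hc.odd (dvd_zero _)
  | h₂ x hx =>
    intro c hc h _
    have hcu : IsUnit c := by
      rcases h with h | h
      · rwa [← h]
      · rw [h] at hx
        exact (IsUnit.neg_iff c).1 hx
    have hc1 : c = 1 := by
      rcases isUnit_iff.1 hcu with h1 | h1
      · exact h1
      · exfalso
        rw [h1] at hc
        exact not_Pr_neg Pr.one hc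
    rw [hc1, sg_one, one_mul, Ideal.span_singleton_one, ← Ideal.one_eq_top]
    exact HC.hd.one
  | h₃ x p hx hp ih =>
    intro c hc h h3
    have hpc : p ∣ c := by
      rcases h with h | h
      · exact ⟨x, h.symm⟩
      · refine ⟨-x, ?_⟩
        rw [mul_neg, h, neg_neg]
    have hlp : ¬ lam ∣ p := fun h' => hc.odd (h'.trans hpc)
    obtain ⟨q, hq⟩ := exists_Pg hp hlp
    have hqc : q.1 ∣ c := by
      rcases hq with hq | hq
      · rwa [hq]
      · rwa [hq, neg_dvd]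
    obtain ⟨d, hd⟩ := hqc
    have hPd : Pr d := Pr_cancel q.2.2 (hd ▸ hc)
    have hxd : x = d ∨ x = -d := by
      have hq0 := q.2.1.ne_zero
      rcases hq with hq | hq
      · rcases h with h | h
        · left
          apply mul_left_cancel₀ hq0
          rw [← hd, ← h, hq]
        · right
          apply mul_left_cancel₀ hq0
          rw [mul_neg, ← hd, ← h, hq]
      · rcases h with h | h
        · right
          apply mul_left_cancel₀ hq0
          rw [mul_neg, ← hd, ← h, hq, neg_mul]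
        · left
          apply mul_left_cancel₀ hq0
          rw [← hd, ← neg_neg c, ← h, hq, neg_mul]
    have hd3 : IsCoprime d 3 := by
      rw [hd] at h3
      exact h3.of_mul_left_right
    have hq3 : ¬ q.1 ∣ 3 := by
      intro h'
      rw [hd] at h3
      exact q.2.1.not_isUnit (h3.of_mul_left_left.isUnit_of_dvd' dvd_rfl h')
    have e0 := ps_mul8 q.1 d
    have e1 := sg_prime q hq3
    have e2 := ih d hPd hxd hd3
    rw [hd, e0, sg_mul q.2.2 hPd, e1, e2]
    ring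

/-- **The Hecke character of `W_{-1}` on the odd elements.** -/
theorem ps_all {c : 𝓞 K8} (hc : Pr c) : ps (Ideal.span {c}) = sg c * c := by
  have hf3 : IsCoprime ((HC.f : 𝓞 K8) * (4 * lam)) 3 := by
    have h3 : IsCoprime (3 : 𝓞 K8) lam := ⟨1, lam, by linear_combination lam_sq⟩
    have h3l : ¬ lam ∣ 3 := by
      intro h
      obtain ⟨x, y, hxy⟩ := h3
      apply lam_not_unit
      rw [isUnit_iff_dvd_one, ← hxy]
      exact dvd_add (h.mul_left x) (dvd_mul_left _ _)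
    refine IsCoprime.mul_left (coprime_f h3l).symm (IsCoprime.mul_left ?_ h3.symm)
    exact (coprime_four h3l).symm
  obtain ⟨x, y, hxy⟩ := hf3
  obtain ⟨a, ha⟩ : ∃ a, a = c + (1 - c) * x * ((HC.f : 𝓞 K8) * (4 * lam)) := ⟨_, rfl⟩
  have hac : (HC.f : 𝓞 K8) * (4 * lam) ∣ a - c := ⟨(1 - c) * x, by rw [ha]; ring⟩
  have ha1 : (3 : 𝓞 K8) ∣ a - 1 := ⟨(c - 1) * y, by
    rw [ha]
    linear_combination (1 - c) * hxy⟩
  have h4 : 4 * lam ∣ a - c := (dvd_mul_left _ _).trans hac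
  have hPa : Pr a := (Pr_congr ((Dvd.intro lam rfl).trans h4)).2 hc
  have ha3 : IsCoprime a 3 := by
    obtain ⟨t, ht⟩ := ha1
    exact ⟨1, -t, by linear_combination ht⟩
  have hpa := ps_three a a hPa (Or.inl rfl) ha3
  obtain ⟨b, e, hbe⟩ := coprime_f hc.odd
  have hfa : (HC.f : 𝓞 K8) ∣ a - c := (dvd_mul_right _ _).trans hac
  have hb1 : (HC.f : 𝓞 K8) ∣ b * c - 1 := ⟨-e, by linear_combination hbe⟩
  have hb2 : (HC.f : 𝓞 K8) ∣ b * a - 1 := by
    have e1 : b * a - 1 = (b * c - 1) + b * (a - c) := by ring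
    rw [e1]
    exact dvd_add hb1 (hfa.mul_left b)
  have r1 : ps (Ideal.span {b * c}) = b * c := HC.hd.ray _ hb1
  have r2 : ps (Ideal.span {b * a}) = b * a := HC.hd.ray _ hb2
  rw [ps_mul8] at r1 r2
  rw [hpa, sg_congr h4] at r2
  have ha0 : a ≠ 0 := by
    rintro rfl
    exact hPa.odd (dvd_zero _)
  have hb0 : b ≠ 0 := by
    rintro rfl
    rw [zero_mul, zero_sub, dvd_neg] at hb1
    exact HC.hd.not_isUnit (isUnit_of_dvd_one hb1)
  have hc0 : c ≠ 0 := by
    rintro rfl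
    exact hc.odd (dvd_zero _)
  have hpb : ps (Ideal.span {b}) ≠ 0 := by
    intro h
    rw [h, zero_mul] at r1
    exact mul_ne_zero hb0 hc0 r1.symm
  have hs : sg c * sg c = 1 := by
    unfold sg
    split_ifs <;> ring
  have h5 : ps (Ideal.span {b}) * sg c = b := by
    apply mul_right_cancel₀ ha0
    linear_combination r2
  have h6 : ps (Ideal.span {b}) = b * sg c := by
    linear_combination (sg c) * h5 - ps (Ideal.span {b}) * hs
  apply mul_left_cancel₀ hpb
  rw [r1, h6]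
  linear_combination (-(b * c)) * hs

end

end Pool.Agent.Lib.MP_1a91b9_ntW.L
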